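import Mathlib

set_option autoImplicit false

namespace Helper575.FF

/-- Homomorphisms with open kernel to a (discrete) group. -/
def DHom (G K : Type) [Group G] [TopologicalSpace G] [Group K] : Type :=
  {φ : G →* K // IsOpen (φ.ker : Set G)}

/-- Lifts of `φ` along `π` with open kernel. -/
def Lifts {G K Q : Type} [Group G] [TopologicalSpace G] [Group K] [Group Q]
    (π : K →* Q) (φ : G →* Q) : Type :=
  {ψ : G →* K // IsOpen (ψ.ker : Set G) ∧ ∀ g, π (ψ g) = φ g}

/-- Uniform number of lifts through surjections of finite groups. -/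
def Unif (G : Type) [Group G] [TopologicalSpace G] : Prop :=
  (∀ (K : Type) [Group K] [Finite K], Finite (DHom G K)) ∧
  ∀ (K Q : Type) [Group K] [Finite K] [Group Q] [Finite Q] (π : K →* Q),
    Function.Surjective π → ∀ φ : G →* Q, IsOpen (φ.ker : Set G) →
      Nat.card (Lifts π φ) = Nat.card (DHom G π.ker)

/-- `P` is the coproduct of `G` and `H` in profinite groups. -/
def IsCoprod (G H P : Type) [Group G] [TopologicalSpace G] [Group H] [TopologicalSpace H]
    [Group P] [TopologicalSpace P] (iG : ContinuousMonoidHom G P) (iH : ContinuousMonoidHom H P) :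
    Prop :=
  ∀ (K : Type) [Group K] [TopologicalSpace K] [IsTopologicalGroup K] [CompactSpace K]
      [T2Space K] [TotallyDisconnectedSpace K]
      (f : ContinuousMonoidHom G K) (g : ContinuousMonoidHom H K),
      ∃! φ : ContinuousMonoidHom P K, (∀ x, φ (iG x) = f x) ∧ (∀ y, φ (iH y) = g y)

/-- `G` is a free profinite group of rank `m`. -/
def IsFreePro (m : ℕ) (G : Type) [Group G] [TopologicalSpace G] : Prop :=
  ∃ ι : Fin m → G,
    ∀ (K : Type) [Group K] [TopologicalSpace K] [IsTopologicalGroup K] [CompactSpace K]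
      [T2Space K] [TotallyDisconnectedSpace K] (f : Fin m → K),
      ∃! φ : ContinuousMonoidHom G K, ∀ i, φ (ι i) = f i

theorem coprod_symm {G H P : Type} [Group G] [TopologicalSpace G] [Group H] [TopologicalSpace H]
    [Group P] [TopologicalSpace P] (iG : ContinuousMonoidHom G P) (iH : ContinuousMonoidHom H P)
    (hc : IsCoprod G H P iG iH) : IsCoprod H G P iH iG := by
  intro K _ _ _ _ _ _ f g
  obtain ⟨φ, h1, h2⟩ := hc K g f
  exact ⟨φ, ⟨h1.2, h1.1⟩, fun ψ hψ => h2 ψ ⟨hψ.2, hψ.1⟩⟩

end Helper575.FF
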