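import Mathlib

set_option autoImplicit false

namespace Helper575.FF.B127

/-- homomorphisms with open kernel from a topological group to an abstract group -/
def CH (G K : Type) [Group G] [TopologicalSpace G] [Group K] : Type :=
  {φ : G →* K // IsOpen (φ.ker : Set G)}

/-- lifts of `φ` along `π` -/
def Lift {G A B : Type} [Group G] [TopologicalSpace G] [Group A] [Group B] (π : A →* B)
    (φ : CH G B) : Type :=
  {ψ : CH G A // π.comp ψ.1 = φ.1}

/-- the number of lifts does not depend on the homomorphism -/
def Unif (G : Type) [Group G] [TopologicalSpace G] : Prop :=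
  ∀ (A B : Type) [Group A] [Finite A] [Group B] [Finite B] (π : A →* B),
    Function.Surjective π → ∀ φ : CH G B, Nat.card (Lift π φ) = Nat.card (CH G π.ker)

end Helper575.FF.B127
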