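import Mathlib
import Pool.Agent.Helper575.FF.Base

set_option autoImplicit false

namespace Helper575.FF.SL1



theorem cont_of_ker {A K : Type} [Group A] [TopologicalSpace A] [IsTopologicalGroup A] [Group K]
    [TopologicalSpace K] [DiscreteTopology K] (f : A →* K) (h : IsOpen (f.ker : Set A)) :
    Continuous f := by
  rw [continuous_discrete_rng]
  intro b
  by_cases hb : ∃ a, f a = b
  · obtain ⟨a, rfl⟩ := hb
    have h1 : f ⁻¹' {f a} = (fun x => a⁻¹ * x) ⁻¹' (f.ker : Set A) := by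
      ext x
      simp only [Set.mem_preimage, Set.mem_singleton_iff, SetLike.mem_coe, MonoidHom.mem_ker,
        map_mul, map_inv]
      rw [inv_mul_eq_one]
      exact eq_comm
    rw [h1]
    exact h.preimage (continuous_const.mul continuous_id)
  · have h1 : f ⁻¹' {b} = ∅ := by
      ext x
      simp only [Set.mem_preimage, Set.mem_singleton_iff, Set.mem_empty_iff_false, iff_false]
      exact fun hx => hb ⟨x, hx⟩
    rw [h1]
    exact isOpen_empty

/-- bundled -/
def mkC {A K : Type} [Group A] [TopologicalSpace A] [IsTopologicalGroup A] [Group K]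
    [TopologicalSpace K] [DiscreteTopology K] (f : A →* K) (h : IsOpen (f.ker : Set A)) :
    ContinuousMonoidHom A K := ⟨f, cont_of_ker f h⟩

theorem mkC_apply {A K : Type} [Group A] [TopologicalSpace A] [IsTopologicalGroup A] [Group K]
    [TopologicalSpace K] [DiscreteTopology K] (f : A →* K) (h : IsOpen (f.ker : Set A)) (a : A) :
    mkC f h a = f a := rfl

theorem ker_open {A K : Type} [Group A] [TopologicalSpace A] [Group K]
    [TopologicalSpace K] [DiscreteTopology K] (f : A →* K) (h : Continuous f) :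
    IsOpen (f.ker : Set A) := by
  have h1 : (f.ker : Set A) = f ⁻¹' {1} := by
    ext x
    simp only [Set.mem_preimage, Set.mem_singleton_iff, SetLike.mem_coe, MonoidHom.mem_ker]
  rw [h1]
  exact (isOpen_discrete _).preimage h

theorem card_fib {K Q : Type} [Group K] [Group Q] (π : K →* Q) (hπ : Function.Surjective π)
    {n : ℕ} (q : Fin n → Q) :
    Nat.card {k : Fin n → K // ∀ i, π (k i) = q i} = (Nat.card π.ker) ^ n := by
  choose c hc using hπ
  have e : {k : Fin n → K // ∀ i, π (k i) = q i} ≃ (Fin n → π.ker) :=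
    { toFun := fun k i => ⟨(c (q i))⁻¹ * k.1 i, by
        rw [MonoidHom.mem_ker, map_mul, map_inv, hc, k.2 i, inv_mul_cancel]⟩
      invFun := fun k => ⟨fun i => c (q i) * (k i).1, fun i => by
        have := (k i).2
        rw [MonoidHom.mem_ker] at this
        rw [map_mul, hc, this, mul_one]⟩
      left_inv := fun k => by
        apply Subtype.ext
        funext i
        exact mul_inv_cancel_left _ _
      right_inv := fun k => by
        funext i
        apply Subtype.ext
        exact inv_mul_cancel_left _ _ }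
  rw [Nat.card_congr e, Nat.card_fun, Nat.card_eq_fintype_card (α := Fin n), Fintype.card_fin]

theorem L1 {G H P : Type} [Group G] [TopologicalSpace G] [IsTopologicalGroup G]
    [Group H] [TopologicalSpace H] [IsTopologicalGroup H]
    [Group P] [TopologicalSpace P] [IsTopologicalGroup P] 
    (iG : ContinuousMonoidHom G P) (iH : ContinuousMonoidHom H P) (hc : IsCoprod G H P iG iH)
    {n : ℕ} (hf : IsFreePro n P) (K Q : Type) [Group K] [Finite K] [Group Q] [Finite Q]
    (π : K →* Q) (hπ : Function.Surjective π) (φ : G →* Q) (hφ : IsOpen (φ.ker : Set G))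
    (ψ : H →* Q) (hψ : IsOpen (ψ.ker : Set H)) :
    Nat.card (Lifts π φ) * Nat.card (Lifts π ψ) = (Nat.card π.ker) ^ n := by
  obtain ⟨ι, hι⟩ := hf
  let tK : TopologicalSpace K := ⊥
  have dK : DiscreteTopology K := ⟨rfl⟩
  let tQ : TopologicalSpace Q := ⊥
  have dQ : DiscreteTopology Q := ⟨rfl⟩
  let πc : ContinuousMonoidHom K Q := ⟨π, continuous_of_discreteTopology⟩
  obtain ⟨Φ0, ⟨hG0, hH0⟩, huniq0⟩ := hc Q (mkC φ hφ) (mkC ψ hψ)
  have huniq : ∀ Φ : ContinuousMonoidHom P Q, (∀ x, Φ (iG x) = φ x) → (∀ y, Φ (iH y) = ψ y) →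
      Φ = Φ0 := fun Φ h1 h2 => huniq0 Φ ⟨h1, h2⟩
  have hG0' : ∀ x, Φ0 (iG x) = φ x := hG0
  have hH0' : ∀ y, Φ0 (iH y) = ψ y := hH0
  -- the glued homomorphism
  have hex : ∀ p : Lifts π φ × Lifts π ψ, ∃ Φ : ContinuousMonoidHom P K,
      (∀ x, Φ (iG x) = p.1.1 x) ∧ (∀ y, Φ (iH y) = p.2.1 y) ∧
      ∀ Φ' : ContinuousMonoidHom P K, (∀ x, Φ' (iG x) = p.1.1 x) → (∀ y, Φ' (iH y) = p.2.1 y) →
        Φ' = Φ := by
    intro p
    obtain ⟨Φ, ⟨h1, h2⟩, h3⟩ := hc K (mkC p.1.1 p.1.2.1) (mkC p.2.1 p.2.2.1)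
    exact ⟨Φ, h1, h2, fun Φ' h4 h5 => h3 Φ' ⟨h4, h5⟩⟩
  choose Φ hΦG hΦH hΦu using hex
  have hπΦ : ∀ p, πc.comp (Φ p) = Φ0 := by
    intro p
    apply huniq
    · intro x
      show π (Φ p (iG x)) = φ x
      rw [hΦG p x]
      exact p.1.2.2 x
    · intro y
      show π (Φ p (iH y)) = ψ y
      rw [hΦH p y]
      exact p.2.2.2 y
  let F : Lifts π φ × Lifts π ψ → {k : Fin n → K // ∀ i, π (k i) = Φ0 (ι i)} := fun p =>
    ⟨fun i => Φ p (ι i), fun i => by rw [← hπΦ p]; rfl⟩
  have hbij : Function.Bijective F := by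
    constructor
    · intro p p' hpp
      have h1 : ∀ i, Φ p (ι i) = Φ p' (ι i) := fun i => congrFun (congrArg Subtype.val hpp) i
      obtain ⟨Ψ, -, hΨ⟩ := hι K (fun i => Φ p' (ι i))
      have h2 : Φ p = Φ p' := (hΨ (Φ p) h1).trans (hΨ (Φ p') (fun i => rfl)).symm
      apply Prod.ext
      · apply Subtype.ext
        apply MonoidHom.ext
        intro x
        rw [← hΦG p x, ← hΦG p' x, h2]
      · apply Subtype.ext
        apply MonoidHom.ext
        intro y
        rw [← hΦH p y, ← hΦH p' y, h2]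
    · rintro ⟨k, hk⟩
      obtain ⟨Ψ, hΨ, -⟩ := hι K k
      obtain ⟨Θ, -, hΘ⟩ := hι Q (fun i => Φ0 (ι i))
      have h1 : πc.comp Ψ = Φ0 := by
        refine (hΘ (πc.comp Ψ) ?_).trans (hΘ Φ0 (fun i => rfl)).symm
        intro i
        show π (Ψ (ι i)) = Φ0 (ι i)
        rw [hΨ i]
        exact hk i
      have h2 : ∀ z, π (Ψ z) = Φ0 z := fun z => by rw [← h1]; rfl
      let α : Lifts π φ := ⟨(Ψ.comp iG).toMonoidHom,
        ker_open _ (Ψ.comp iG).continuous_toFun, fun g => by
          show π (Ψ (iG g)) = φ g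
          rw [h2, hG0']⟩
      let β : Lifts π ψ := ⟨(Ψ.comp iH).toMonoidHom,
        ker_open _ (Ψ.comp iH).continuous_toFun, fun g => by
          show π (Ψ (iH g)) = ψ g
          rw [h2, hH0']⟩
      refine ⟨(α, β), ?_⟩
      have h3 : Ψ = Φ (α, β) := hΦu (α, β) Ψ (fun x => rfl) (fun y => rfl)
      apply Subtype.ext
      funext i
      show Φ (α, β) (ι i) = k i
      rw [← h3]
      exact hΨ i
  rw [← Nat.card_prod, Nat.card_congr (Equiv.ofBijective F hbij)]
  exact card_fib π hπ (fun i => Φ0 (ι i))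

end Helper575.FF.SL1
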