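import Mathlib
import Pool.Agent.Helper575.FF.Base

set_option autoImplicit false

namespace Helper575.FF.SL11



theorem L11 {G : Type} [Group G] [TopologicalSpace G] [IsTopologicalGroup G] [CompactSpace G]
    [T2Space G] [TotallyDisconnectedSpace G] (g : G)
    (hg : ∀ (Q : Type) [Group Q] [Finite Q] (φ : G →* Q), IsOpen (φ.ker : Set G) →
      Function.Surjective φ → ∀ x : Q, x ∈ Subgroup.zpowers (φ g))
    (hfin : ∀ (K : Type) [Group K] [Finite K] (k : K), ∃ φ : G →* K, IsOpen (φ.ker : Set G) ∧
      φ g = k) : IsFreePro 1 G := by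
  classical
  -- density of the powers of `g`
  have hdense : Dense ((Subgroup.zpowers g : Subgroup G) : Set G) := by
    intro x
    rw [mem_closure_iff_nhds]
    intro O hO
    have hO1 : (fun y : G => x * y) ⁻¹' O ∈ nhds (1:G) := by
      have hc : Continuous (fun y : G => x * y) := continuous_const.mul continuous_id
      apply hc.continuousAt.preimage_mem_nhds
      simpa using hO
    obtain ⟨V, hVO, hVopen, h1V⟩ := mem_nhds_iff.1 hO1
    obtain ⟨N, hN⟩ := ProfiniteGrp.exist_openNormalSubgroup_sub_open_nhds_of_one hVopen h1V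
    haveI hNn : (N : Subgroup G).Normal := N.isNormal'
    haveI : Finite (G ⧸ (N : Subgroup G)) := Subgroup.quotient_finite_of_isOpen _ N.isOpen'
    have hk : IsOpen (((QuotientGroup.mk' (N : Subgroup G)).ker : Subgroup G) : Set G) := by
      rw [QuotientGroup.ker_mk']
      exact N.isOpen'
    obtain ⟨n, hn⟩ := Subgroup.mem_zpowers_iff.1 (hg (G ⧸ (N : Subgroup G))
      (QuotientGroup.mk' (N : Subgroup G)) hk (QuotientGroup.mk'_surjective _)
      (QuotientGroup.mk' (N : Subgroup G) x))
    refine ⟨g ^ n, ?_, ⟨n, rfl⟩⟩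
    have hmem : x⁻¹ * g ^ n ∈ (N : Subgroup G) := by
      rw [← QuotientGroup.eq]
      rw [← map_zpow] at hn
      exact hn.symm
    have := hVO (hN hmem)
    simpa using this
  refine ⟨fun _ => g, ?_⟩
  intro K _ _ _ _ _ _ f
  set k : K := f 0 with hk
  -- closed subgroup generated by (g,k)
  set Γ : Subgroup (G × K) := (Subgroup.zpowers ((g, k) : G × K)).topologicalClosure with hΓ
  have hgk : ((g, k) : G × K) ∈ Γ := Subgroup.le_topologicalClosure _ (Subgroup.mem_zpowers _)
  have hΓc : IsClosed (Γ : Set (G × K)) := Subgroup.isClosed_topologicalClosure _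
  haveI hΓcomp : CompactSpace Γ := isCompact_iff_compactSpace.1 hΓc.isCompact
  -- injectivity
  have hinj : ∀ c : K, ((1 : G), c) ∈ Γ → c = 1 := by
    intro c hc
    by_contra hc1
    obtain ⟨W, hW⟩ := ProfiniteGrp.exist_openNormalSubgroup_sub_open_nhds_of_one
      (isOpen_compl_singleton (x := c)) (by
        simp only [Set.mem_compl_iff, Set.mem_singleton_iff]
        exact fun h => hc1 h.symm)
    haveI hWn : (W : Subgroup K).Normal := W.isNormal'
    haveI : Finite (K ⧸ (W : Subgroup K)) := Subgroup.quotient_finite_of_isOpen _ W.isOpen'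
    obtain ⟨φ, hφo, hφg⟩ := hfin (K ⧸ (W : Subgroup K)) (QuotientGroup.mk' (W : Subgroup K) k)
    let S : Subgroup (G × K) :=
      MonoidHom.eqLocus (φ.comp (MonoidHom.fst G K))
        ((QuotientGroup.mk' (W : Subgroup K)).comp (MonoidHom.snd G K))
    have hSmem : ∀ p : G × K, p ∈ S ↔ φ p.1 = QuotientGroup.mk' (W : Subgroup K) p.2 := fun p => Iff.rfl
    have hSo : IsOpen (S : Set (G × K)) := by
      apply Subgroup.isOpen_of_mem_nhds S (g := 1)
      have h1 : ((φ.ker : Subgroup G) : Set G) ×ˢ ((W : Subgroup K) : Set K) ∈ nhds (1 : G × K) := by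
        apply IsOpen.mem_nhds (hφo.prod W.isOpen')
        exact ⟨φ.ker.one_mem, (W : Subgroup K).one_mem⟩
      refine Filter.mem_of_superset h1 ?_
      rintro ⟨a, b⟩ ⟨ha, hb⟩
      have ha' : φ a = 1 := ha
      have hb' : QuotientGroup.mk' (W : Subgroup K) b = 1 := (QuotientGroup.eq_one_iff b).2 hb
      exact (hSmem _).2 (ha'.trans hb'.symm)
    have hSc : IsClosed (S : Set (G × K)) := Subgroup.isClosed_of_isOpen _ hSo
    have hle : Γ ≤ S := by
      apply Subgroup.topologicalClosure_minimal _ _ hSc
      rw [Subgroup.zpowers_le]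
      exact (hSmem _).2 hφg
    have h2 := (hSmem _).1 (hle hc)
    simp only [map_one] at h2
    have h3 : c ∈ (W : Subgroup K) := (QuotientGroup.eq_one_iff c).1 h2.symm
    exact hW h3 rfl
  -- the projection
  let π : Γ →* G := (MonoidHom.fst G K).comp Γ.subtype
  have hπc : Continuous π := continuous_fst.comp continuous_subtype_val
  have hπi : Function.Injective π := by
    rw [injective_iff_map_eq_one]
    rintro ⟨⟨a, b⟩, hab⟩ h
    have ha : a = 1 := h
    subst ha
    have := hinj b hab
    subst this
    rfl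
  have hπs : Function.Surjective π := by
    have hcl : IsClosed (Set.range π) := (isCompact_range hπc).isClosed
    have hsub : ((Subgroup.zpowers g : Subgroup G) : Set G) ⊆ Set.range π := by
      rintro _ ⟨n, rfl⟩
      exact ⟨⟨(g, k), hgk⟩ ^ n, by simp [π]⟩
    have : Set.range π = Set.univ := by
      apply Set.eq_univ_of_univ_subset
      rw [← hdense.closure_eq]
      exact closure_minimal hsub hcl
    intro x
    have hx : x ∈ Set.range π := by rw [this]; trivial
    exact hx
  let e : Γ ≃* G := MulEquiv.ofBijective π ⟨hπi, hπs⟩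
  have hec : Continuous e.toEquiv := hπc
  have hes : Continuous e.toEquiv.symm := Continuous.continuous_symm_of_equiv_compact_to_t2 hec
  let Φ : G →* K := ((MonoidHom.snd G K).comp Γ.subtype).comp e.symm.toMonoidHom
  have hΦc : Continuous Φ := continuous_snd.comp (continuous_subtype_val.comp hes)
  have heg : e.symm g = ⟨(g, k), hgk⟩ := by
    rw [MulEquiv.symm_apply_eq]
    rfl
  have hΦg : Φ g = k := by
    change (e.symm g).1.2 = k
    rw [heg]
  refine ⟨⟨Φ, hΦc⟩, ?_, ?_⟩
  · intro i
    have : i = 0 := Subsingleton.elim _ _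
    subst this
    exact hΦg
  · intro ψ hψ
    have hψg : ψ g = k := hψ 0
    apply ContinuousMonoidHom.ext
    intro x
    have heq : Set.EqOn (ψ : G → K) Φ ((Subgroup.zpowers g : Subgroup G) : Set G) := by
      rintro _ ⟨n, rfl⟩
      simp only [map_zpow, hψg, hΦg]
    have := Continuous.ext_on hdense ψ.continuous_toFun hΦc heq
    exact congrFun this x

end Helper575.FF.SL11
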