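import Mathlib
import Pool.Agent.Helper575.FF.Base

set_option autoImplicit false

namespace Helper575.FF.SL12



theorem L12 {G : Type} [Group G] [TopologicalSpace G] [IsTopologicalGroup G] [CompactSpace G]
    [T2Space G] [TotallyDisconnectedSpace G] (g : G)
    (hg : ∀ (Q : Type) [Group Q] [Finite Q] (φ : G →* Q), IsOpen (φ.ker : Set G) →
      Function.Surjective φ → ∀ x : Q, x ∈ Subgroup.zpowers (φ g))
    (hfi : ∀ (K : Type) [Group K] [Finite K], Finite (DHom G K))
    (hsol : ∀ (K : Type) [Group K] [Finite K] [Group.IsSolvable K],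
      Nat.card (DHom G K) = Nat.card K)
    (K : Type) [Group K] [Finite K] (k : K) : ∃ φ : G →* K, IsOpen (φ.ker : Set G) ∧
      φ g = k := by
  classical
  have hcomm : ∀ a b : Subgroup.zpowers k, a * b = b * a := by
    rintro ⟨a, ha⟩ ⟨b, hb⟩
    obtain ⟨m, rfl⟩ := Subgroup.mem_zpowers_iff.1 ha
    obtain ⟨n, rfl⟩ := Subgroup.mem_zpowers_iff.1 hb
    apply Subtype.ext
    change k ^ m * k ^ n = k ^ n * k ^ m
    rw [← zpow_add, ← zpow_add, add_comm]
  haveI : Group.IsSolvable (Subgroup.zpowers k) := Group.isSolvable_of_comm hcomm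
  have hcard := hsol (Subgroup.zpowers k)
  haveI : Finite (DHom G (Subgroup.zpowers k)) := hfi _
  let ev : DHom G (Subgroup.zpowers k) → Subgroup.zpowers k := fun φ => φ.1 g
  have hinj : Function.Injective ev := by
    rintro ⟨φ, hφ⟩ ⟨ψ, hψ⟩ h
    have h' : φ g = ψ g := h
    apply Subtype.ext
    let θ : G →* (Subgroup.zpowers k) × (Subgroup.zpowers k) := φ.prod ψ
    have hker : (θ.rangeRestrict.ker : Set G) = (φ.ker : Set G) ∩ (ψ.ker : Set G) := by
      ext x
      simp only [MonoidHom.ker_rangeRestrict, SetLike.mem_coe, MonoidHom.mem_ker, Set.mem_inter_iff]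
      change ((φ x, ψ x) : (Subgroup.zpowers k) × (Subgroup.zpowers k)) = 1 ↔ _
      rw [Prod.ext_iff]
      rfl
    have hopen : IsOpen (θ.rangeRestrict.ker : Set G) := by
      rw [hker]
      exact hφ.inter hψ
    have hg' := hg θ.range θ.rangeRestrict hopen (MonoidHom.rangeRestrict_surjective θ)
    apply MonoidHom.ext
    intro x
    obtain ⟨n, hn⟩ := Subgroup.mem_zpowers_iff.1 (hg' (θ.rangeRestrict x))
    have hn' : (θ g) ^ n = θ x := by
      have := congrArg (fun z : θ.range => (z : (Subgroup.zpowers k) × (Subgroup.zpowers k))) hn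
      simpa using this
    have h1 : (φ g) ^ n = φ x := congrArg Prod.fst hn'
    have h2 : (ψ g) ^ n = ψ x := congrArg Prod.snd hn'
    rw [← h1, ← h2, h']
  have hbij : Function.Bijective ev :=
    (Nat.bijective_iff_injective_and_card ev).2 ⟨hinj, hcard⟩
  obtain ⟨φ, hφ⟩ := hbij.2 ⟨k, Subgroup.mem_zpowers k⟩
  refine ⟨(Subgroup.zpowers k).subtype.comp φ.1, ?_, ?_⟩
  · have : (((Subgroup.zpowers k).subtype.comp φ.1).ker : Set G) = (φ.1.ker : Set G) := by
      ext x
      simp only [SetLike.mem_coe, MonoidHom.mem_ker, MonoidHom.comp_apply]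
      exact ⟨fun h => Subtype.ext h, fun h => by rw [h]; rfl⟩
    rw [this]
    exact φ.2
  · have : φ.1 g = ⟨k, Subgroup.mem_zpowers k⟩ := hφ
    rw [MonoidHom.comp_apply, this]
    rfl

end Helper575.FF.SL12
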