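import Mathlib
import Pool.Agent.Helper575.FF.Base

set_option autoImplicit false

namespace Helper575.FF.SL13



/-- trivial factor -/
theorem L13 {G H P : Type} [Group G] [TopologicalSpace G] [IsTopologicalGroup G]
    [Group H] [TopologicalSpace H] [IsTopologicalGroup H] [CompactSpace H] [T2Space H]
    [TotallyDisconnectedSpace H]
    [Group P] [TopologicalSpace P] [IsTopologicalGroup P] [CompactSpace P] [T2Space P]
    [TotallyDisconnectedSpace P]
    (iG : ContinuousMonoidHom G P) (iH : ContinuousMonoidHom H P) (hc : IsCoprod G H P iG iH)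
    {n : ℕ} (hf : IsFreePro n P) [Subsingleton G] : IsFreePro n H := by
  obtain ⟨r, ⟨hr1, hr2⟩, hru⟩ := hc H 1 (ContinuousMonoidHom.id H)
  obtain ⟨e, ⟨he1, he2⟩, heu⟩ := hc P iG iH
  have h1 : ContinuousMonoidHom.id P = e := heu _ ⟨fun x => rfl, fun y => rfl⟩
  have h2 : iH.comp r = e := by
    refine heu _ ⟨fun x => ?_, fun y => ?_⟩
    · rw [Subsingleton.elim x 1]
      show iH (r (iG 1)) = iG 1
      rw [map_one, map_one, map_one]
    · show iH (r (iH y)) = iH y
      rw [hr2 y]
      rfl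
  have hid : ∀ p, iH (r p) = p := fun p => by
    have h3 := congrArg (fun φ : ContinuousMonoidHom P P => φ p) (h2.trans h1.symm)
    exact h3
  obtain ⟨ι, hι⟩ := hf
  refine ⟨fun i => r (ι i), ?_⟩
  intro K _ _ _ _ _ _ f
  obtain ⟨Φ, hΦ, hu⟩ := hι K f
  refine ⟨Φ.comp iH, fun i => ?_, fun φ hφ => ?_⟩
  · show Φ (iH (r (ι i))) = f i
    rw [hid]
    exact hΦ i
  · have h3 : φ.comp r = Φ := hu _ (fun i => hφ i)
    ext y
    show φ y = Φ (iH y)
    rw [← h3]
    show φ y = φ (r (iH y))
    rw [hr2 y]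
    rfl

end Helper575.FF.SL13
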