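import Mathlib
import Pool.Agent.Helper575.FF.Base

set_option autoImplicit false

namespace Helper575.FF.SL14



theorem L14 {G : Type} [Group G] [TopologicalSpace G] [Subsingleton G] : IsFreePro 0 G := by
  refine ⟨Fin.elim0, ?_⟩
  intro K _ _ _ _ _ _ f
  refine ⟨{ toMonoidHom := 1, continuous_toFun := continuous_const }, fun i => i.elim0, ?_⟩
  intro φ _
  ext g
  have hg : g = 1 := Subsingleton.elim _ _
  rw [hg, map_one, map_one]

end Helper575.FF.SL14
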