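import Mathlib
import Pool.Agent.Helper575.FF.Base

set_option autoImplicit false

namespace Helper575.FF.SL1f



theorem L1f {G H P : Type} [Group G] [TopologicalSpace G] [IsTopologicalGroup G]
    [Group H] [TopologicalSpace H] [IsTopologicalGroup H]
    [Group P] [TopologicalSpace P] [IsTopologicalGroup P] 
    (iG : ContinuousMonoidHom G P) (iH : ContinuousMonoidHom H P) (hc : IsCoprod G H P iG iH)
    {n : ℕ} (hf : IsFreePro n P) (K : Type) [Group K] [Finite K] : Finite (DHom G K) := by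
  letI : TopologicalSpace K := ⊥
  haveI : DiscreteTopology K := ⟨rfl⟩
  obtain ⟨ι, hι⟩ := hf
  have hcont : ∀ φ : DHom G K, Continuous φ.1 := by
    intro φ
    apply continuous_of_continuousAt_one φ.1
    rw [ContinuousAt, nhds_discrete K, Filter.tendsto_pure]
    filter_upwards [φ.2.mem_nhds (one_mem _)] with x hx
    rw [map_one]
    exact hx
  let toC : DHom G K → ContinuousMonoidHom G K := fun φ => ⟨φ.1, hcont φ⟩
  have hex : ∀ φ : DHom G K, ∃ Φ : ContinuousMonoidHom P K, ∀ x, Φ (iG x) = φ.1 x := by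
    intro φ
    obtain ⟨Φ, h, -⟩ := hc K (toC φ) 1
    exact ⟨Φ, h.1⟩
  choose Φ hΦ using hex
  apply Finite.of_injective (fun φ : DHom G K => fun i : Fin n => Φ φ (ι i))
  intro φ ψ h
  have h' : ∀ i, Φ φ (ι i) = Φ ψ (ι i) := fun i => congrFun h i
  obtain ⟨X, -, hX⟩ := hι K (fun i => Φ φ (ι i))
  have e1 := hX (Φ φ) (fun i => rfl)
  have e2 := hX (Φ ψ) (fun i => (h' i).symm)
  apply Subtype.ext
  ext x
  rw [← hΦ φ x, ← hΦ ψ x, e1, e2]

end Helper575.FF.SL1f
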