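import Mathlib
import Pool.Agent.Helper575.FF.Base

set_option autoImplicit false

namespace Helper575.FF.SL2a



/-- Lifts of the trivial hom are homs to the kernel. -/
theorem L2a {G K Q : Type} [Group G] [TopologicalSpace G] [Group K] [Group Q] (π : K →* Q) :
    Nat.card (Lifts (G := G) π 1) = Nat.card (DHom G π.ker) := by
  apply Nat.card_congr
  refine
    { toFun := fun ψ => ⟨ψ.1.codRestrict π.ker (fun g => by
          rw [MonoidHom.mem_ker]
          exact ψ.2.2 g), ?_⟩
      invFun := fun φ => ⟨π.ker.subtype.comp φ.1, ?_, fun g => (φ.1 g).2⟩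
      left_inv := fun ψ => by
        apply Subtype.ext
        ext g
        rfl
      right_inv := fun φ => by
        apply Subtype.ext
        ext g
        rfl }
  · have h : ((ψ.1.codRestrict π.ker (fun g => by
          rw [MonoidHom.mem_ker]
          exact ψ.2.2 g)).ker : Set G) = (ψ.1.ker : Set G) := by
      ext g
      simp only [SetLike.mem_coe, MonoidHom.mem_ker]
      rw [Subtype.ext_iff]
      rfl
    rw [h]
    exact ψ.2.1
  · have h : ((π.ker.subtype.comp φ.1).ker : Set G) = (φ.1.ker : Set G) := by
      ext g
      simp only [SetLike.mem_coe, MonoidHom.mem_ker]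
      rw [Subtype.ext_iff]
      rfl
    rw [h]
    exact φ.2

end Helper575.FF.SL2a
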