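import Mathlib
import Pool.Agent.Helper575.FF.Base

set_option autoImplicit false

namespace Helper575.FF.SL2b



/-- Lifts to the trivial group are all homs. -/
theorem L2b {G K : Type} [Group G] [TopologicalSpace G] [Group K] :
    Nat.card (Lifts (G := G) (1 : K →* Unit) 1) = Nat.card (DHom G K) := by
  unfold Lifts DHom
  exact Nat.card_congr (Equiv.subtypeEquivRight (fun ψ =>
    ⟨fun h => h.1, fun h => ⟨h, fun _ => Subsingleton.elim _ _⟩⟩))

end Helper575.FF.SL2b
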