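import Mathlib
import Pool.Agent.Helper575.FF.Base
-- helper491: instance [IsTopologicalGroup G] added (needed for openness of the kernel)

set_option autoImplicit false

namespace Helper575.FF.SL3



/-- multiplicativity -/
theorem L3 {G : Type} [Group G] [TopologicalSpace G] [IsTopologicalGroup G] (hU : Unif G)
    (K Q : Type) [Group K] [Finite K] [Group Q] [Finite Q] (π : K →* Q)
    (hπ : Function.Surjective π) :
    Nat.card (DHom G K) = Nat.card (DHom G Q) * Nat.card (DHom G π.ker) := by
  classical
  let e : DHom G K ≃ (Σ φ : DHom G Q, Lifts π φ.1) :=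
    { toFun := fun ψ => ⟨⟨π.comp ψ.1, by
          refine Subgroup.isOpen_mono (H₁ := ψ.1.ker) (H₂ := (π.comp ψ.1).ker) ?_ ψ.2
          intro x hx
          rw [MonoidHom.mem_ker] at hx ⊢
          rw [MonoidHom.comp_apply, hx, map_one]⟩, ⟨ψ.1, ψ.2, fun _ => rfl⟩⟩
      invFun := fun p => ⟨p.2.1, p.2.2.1⟩
      left_inv := fun ψ => rfl
      right_inv := fun p => by
        obtain ⟨⟨φ, hφ⟩, ⟨ψ, hψ, hc⟩⟩ := p
        have : φ = π.comp ψ := by
          ext x
          exact (hc x).symm
        subst this
        rfl }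
  have hfQ : Finite (DHom G Q) := hU.1 Q
  have hft : Fintype (DHom G Q) := Fintype.ofFinite _
  have hfK : Finite (DHom G K) := hU.1 K
  have hfL : ∀ φ : DHom G Q, Finite (Lifts π φ.1) := by
    intro φ
    let F : Lifts π φ.1 → DHom G K := fun ψ => ⟨ψ.1, ψ.2.1⟩
    have hF : Function.Injective F := by
      intro a b hab
      have h1 : (F a).1 = (F b).1 := by rw [hab]
      exact Subtype.ext h1
    exact Finite.of_injective F hF
  rw [Nat.card_congr e, Nat.card_sigma]
  rw [Finset.sum_congr rfl (fun φ _ => hU.2 K Q π hπ φ.1 φ.2)]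
  rw [Finset.sum_const, Finset.card_univ, smul_eq_mul, Nat.card_eq_fintype_card (α := DHom G Q)]

end Helper575.FF.SL3
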