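import Mathlib
import Pool.Agent.Helper575.FF.Base

set_option autoImplicit false

namespace Helper575.FF.SL4



theorem L4_triv {G : Type} [Group G] [TopologicalSpace G] (K : Type) [Group K] [Subsingleton K] :
    Nat.card (DHom G K) = 1 := by
  rw [Nat.card_eq_one_iff_unique]
  constructor
  · constructor
    rintro ⟨f, hf⟩ ⟨g, hg⟩
    apply Subtype.ext
    apply MonoidHom.ext
    intro x
    exact Subsingleton.elim _ _
  · refine ⟨⟨1, ?_⟩⟩
    rw [MonoidHom.ker_one]
    exact isOpen_univ

/-- solvable count -/
theorem L4 {G : Type} [Group G] [TopologicalSpace G]
    (hmul : ∀ (K Q : Type) [Group K] [Finite K] [Group Q] [Finite Q] (π : K →* Q),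
      Function.Surjective π →
      Nat.card (DHom G K) = Nat.card (DHom G Q) * Nat.card (DHom G π.ker))
    (hp : ∀ p : ℕ, p.Prime → Nat.card (DHom G (Multiplicative (ZMod p))) = p)
    (K : Type) [Group K] [Finite K] [Group.IsSolvable K] :
    Nat.card (DHom G K) = Nat.card K := by
  have hiso : ∀ (K Q : Type) [Group K] [Finite K] [Group Q] [Finite Q] (e : K ≃* Q),
      Nat.card (DHom G K) = Nat.card (DHom G Q) := by
    intro K Q _ _ _ _ e
    have h := hmul K Q e.toMonoidHom e.surjective
    have hs : Subsingleton e.toMonoidHom.ker := by
      constructor
      rintro ⟨a, ha⟩ ⟨b, hb⟩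
      apply Subtype.ext
      apply e.injective
      have h1 : e a = 1 := ha
      have h2 : e b = 1 := hb
      show e a = e b
      rw [h1, h2]
    rw [L4_triv (G := G) e.toMonoidHom.ker, mul_one] at h
    exact h
  have main : ∀ (n : ℕ) (K : Type) [Group K] [Finite K] [Group.IsSolvable K],
      Nat.card K = n → Nat.card (DHom G K) = Nat.card K := by
    intro n
    induction n using Nat.strong_induction_on with
    | _ n ih =>
      intro K _ _ _ hn
      by_cases hsub : Subsingleton K
      · rw [L4_triv]
        exact (Nat.card_eq_one_iff_unique.2 ⟨hsub, ⟨1⟩⟩).symm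
      · have hnt : Nontrivial K := not_subsingleton_iff_nontrivial.1 hsub
        -- a general splitting step
        have step : ∀ (N : Subgroup K) [N.Normal], N ≠ ⊥ → N ≠ ⊤ →
            Nat.card (DHom G K) = Nat.card K := by
          intro N _ hb ht
          have hmulc : Nat.card K = Nat.card (K ⧸ N) * Nat.card N :=
            Subgroup.card_eq_card_quotient_mul_card_subgroup N
          have hN1 : 1 < Nat.card N := by
            rw [Subgroup.one_lt_card_iff_ne_bot]; exact hb
          have hQ1 : 1 < Nat.card (K ⧸ N) := by
            have h1 : Nat.card (K ⧸ N) = N.index := rfl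
            rw [h1]
            have h2 : N.index ≠ 1 := fun h => ht (Subgroup.index_eq_one.1 h)
            have h3 : N.index ≠ 0 := Subgroup.index_ne_zero_of_finite
            omega
          have hlt1 : Nat.card N < n := by rw [← hn, hmulc]; nlinarith
          have hlt2 : Nat.card (K ⧸ N) < n := by rw [← hn, hmulc]; nlinarith
          have h := hmul K (K ⧸ N) (QuotientGroup.mk' N) (QuotientGroup.mk'_surjective N)
          have hker : (QuotientGroup.mk' N).ker = N := QuotientGroup.ker_mk' N
          have hc : Nat.card (DHom G (QuotientGroup.mk' N).ker) = Nat.card (DHom G N) := by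
            rw [hker]
          rw [h, hc, ih _ hlt2 (K ⧸ N) rfl, ih _ hlt1 N rfl, ← hmulc]
        by_cases hcomm : commutator K = ⊥
        · -- abelian
          have hab : ∀ x y : K, x * y = y * x := by
            intro x y
            have h1 := Subgroup.commutator_mem_commutator
              (Subgroup.mem_top x) (Subgroup.mem_top y)
            rw [← commutator_def, hcomm, Subgroup.mem_bot, commutatorElement_eq_one_iff_mul_comm] at h1
            exact h1
          obtain ⟨p, hpp, hdvd⟩ := Nat.exists_prime_and_dvd (n := Nat.card K) (by
            intro h
            have := Nat.card_eq_one_iff_unique.1 h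
            exact hsub this.1)
          have : Fact p.Prime := ⟨hpp⟩
          obtain ⟨g, hg⟩ := exists_prime_orderOf_dvd_card' p hdvd
          have hZn : (Subgroup.zpowers g).Normal := by
            constructor
            intro a ha b
            rw [hab b a, mul_inv_cancel_right]
            exact ha
          have hZb : Subgroup.zpowers g ≠ ⊥ := by
            intro h
            rw [Subgroup.zpowers_eq_bot] at h
            rw [h, orderOf_one] at hg
            exact hpp.one_lt.ne hg
          by_cases hZt : Subgroup.zpowers g = ⊤
          · -- cyclic of prime order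
            have hcard : Nat.card K = p := by
              rw [← hg, ← Nat.card_zpowers, hZt, Subgroup.card_top]
            have hcp : Nat.card (Multiplicative (ZMod p)) = p := by
              simp
            have : Finite (Multiplicative (ZMod p)) := by
              apply Nat.finite_of_card_ne_zero
              rw [hcp]; exact hpp.ne_zero
            rw [hiso K (Multiplicative (ZMod p)) (mulEquivOfPrimeCardEq (p := p) hcard hcp), hp p hpp,
              hcard]
          · exact step _ hZb hZt
        · refine step (commutator K) hcomm ?_
          exact (Group.IsSolvable.commutator_lt_top_of_nontrivial K).ne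
  exact main _ K rfl

end Helper575.FF.SL4
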