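import Mathlib
import Pool.Agent.Helper575.FF.Base

set_option autoImplicit false

namespace Helper575.FF.SL4b



theorem L4b_open {G : Type} [Group G] [TopologicalSpace G] [IsTopologicalGroup G]
    (A X : Type) [Group A] [Finite X] (ψ : X → DHom G A) :
    IsOpen ((MonoidHom.ker (MonoidHom.pi fun x => (ψ x).1) : Subgroup G) : Set G) := by
  have h1 : IsOpen (⋂ x, ((ψ x).1.ker : Set G)) := isOpen_iInter_of_finite fun x => (ψ x).2
  have h2 : ((MonoidHom.ker (MonoidHom.pi fun x => (ψ x).1) : Subgroup G) : Set G) =
      ⋂ x, ((ψ x).1.ker : Set G) := by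
    ext g
    rw [Set.mem_iInter, SetLike.mem_coe, MonoidHom.mem_ker]
    constructor
    · intro h x
      rw [SetLike.mem_coe, MonoidHom.mem_ker]
      exact congrFun h x
    · intro h
      funext x
      exact MonoidHom.mem_ker.mp (h x)
  rw [h2]
  exact h1

/-- powers -/
theorem L4b {G : Type} [Group G] [TopologicalSpace G] [IsTopologicalGroup G]
    (A X : Type) [Group A] [Finite A] [Finite X] :
    Nat.card (DHom G (X → A)) = Nat.card (DHom G A) ^ Nat.card X := by
  let e : DHom G (X → A) ≃ (X → DHom G A) :=
    { toFun := fun φ x => ⟨(Pi.evalMonoidHom (fun _ : X => A) x).comp φ.1, by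
        refine Subgroup.isOpen_mono ?_ φ.2
        intro g hg
        rw [MonoidHom.mem_ker] at hg ⊢
        rw [MonoidHom.comp_apply, hg, map_one]⟩
      invFun := fun ψ => ⟨MonoidHom.pi fun x => (ψ x).1, L4b_open A X ψ⟩
      left_inv := fun φ => by
        apply Subtype.ext
        rfl
      right_inv := fun ψ => by
        funext x
        apply Subtype.ext
        rfl }
  rw [Nat.card_congr e, Nat.card_fun]

end Helper575.FF.SL4b
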