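import Mathlib
import Pool.Agent.Helper575.FF.Base

set_option autoImplicit false

namespace Helper575.FF.SL5



theorem dhom_card_congr352 {G K L : Type} [Group G] [TopologicalSpace G] [Group K] [Group L]
    (e : K ≃* L) : Nat.card (DHom G K) = Nat.card (DHom G L) := by
  refine Nat.card_congr ⟨fun φ => ⟨e.toMonoidHom.comp φ.1, ?_⟩,
    fun φ => ⟨e.symm.toMonoidHom.comp φ.1, ?_⟩, ?_, ?_⟩
  · have h : ((e.toMonoidHom.comp φ.1).ker : Set G) = (φ.1.ker : Set G) := by
      ext g
      simp [MonoidHom.mem_ker]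
    rw [h]
    exact φ.2
  · have h : ((e.symm.toMonoidHom.comp φ.1).ker : Set G) = (φ.1.ker : Set G) := by
      ext g
      simp [MonoidHom.mem_ker]
    rw [h]
    exact φ.2
  · intro φ
    apply Subtype.ext
    ext g
    simp
  · intro φ
    apply Subtype.ext
    ext g
    simp

/-- a nontrivial uniform group has nontrivial homs to every cyclic group of prime order. -/
theorem L5 {G : Type} [Group G] [TopologicalSpace G] [IsTopologicalGroup G] [CompactSpace G]
    [T2Space G] [TotallyDisconnectedSpace G] [Nontrivial G] (hU : Unif G)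
    (hpow : ∀ (A X : Type) [Group A] [Finite A] [Finite X],
      Nat.card (DHom G (X → A)) = Nat.card (DHom G A) ^ Nat.card X)
    (p : ℕ) (hp : p.Prime) :
    Nat.card (DHom G (Multiplicative (ZMod p))) ≠ 1 := by
  classical
  intro hcard
  have : Fact p.Prime := ⟨hp⟩
  have : NeZero p := ⟨hp.ne_zero⟩
  obtain ⟨x, hx⟩ := exists_ne (1 : G)
  obtain ⟨U, hUs⟩ := ProfiniteGrp.exist_openNormalSubgroup_sub_open_nhds_of_one
    (G := G) (U := ({x} : Set G)ᶜ) isOpen_compl_singleton (by simpa using hx.symm)
  have hxU : x ∉ (U : Set G) := fun h => (hUs h) rfl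
  let N : Subgroup G := U.toSubgroup
  have : N.Normal := U.isNormal'
  have hNo : IsOpen (N : Set G) := U.isOpen'
  have : Finite (G ⧸ N) := Subgroup.quotient_finite_of_isOpen N hNo
  let φ : G →* G ⧸ N := QuotientGroup.mk' N
  have hφk : φ.ker = N := QuotientGroup.ker_mk' N
  have hφo : IsOpen (φ.ker : Set G) := by rw [hφk]; exact hNo
  have hφx : φ x ≠ 1 := by
    intro h
    have : x ∈ φ.ker := h
    rw [hφk] at this
    exact hxU this
  let A : Type := Multiplicative (ZMod p)
  let Q : Type := G ⧸ N
  let K : Type := (Q → A) ⋊[mulAutArrow] Q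
  have : Finite A := inferInstanceAs (Finite (Multiplicative (ZMod p)))
  have : Finite (Q → A) := inferInstance
  have : Finite K := Finite.of_equiv _ (SemidirectProduct.equivProd (N := Q → A) (G := Q)
    (φ := mulAutArrow)).symm
  let π : K →* Q := SemidirectProduct.rightHom
  have hπ : Function.Surjective π := SemidirectProduct.rightHom_surjective
  have h1 := hU.2 K Q π hπ φ hφo
  let e : (Q → A) ≃* π.ker :=
    (MonoidHom.ofInjective (SemidirectProduct.inl_injective (φ := (mulAutArrow : Q →* MulAut (Q → A))))).trans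
      (MulEquiv.subgroupCongr SemidirectProduct.range_inl_eq_ker_rightHom)
  have h2 : Nat.card (DHom G π.ker) = 1 := by
    rw [← dhom_card_congr352 e, hpow A Q, hcard, one_pow]
  rw [h2] at h1
  -- two lifts
  let ψ1 : G →* K := (SemidirectProduct.inr).comp φ
  let a : A := Multiplicative.ofAdd (1 : ZMod p)
  have ha : a ≠ 1 := by
    intro h
    have h' : (1 : ZMod p) = 0 := h
    exact one_ne_zero h'
  let f : Q → A := Pi.mulSingle 1 a
  let ψ2 : G →* K := (MulAut.conj (SemidirectProduct.inl f : K)).toMonoidHom.comp ψ1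
  have hk1 : φ.ker ≤ ψ1.ker := by
    intro g hg
    have : φ g = 1 := hg
    show SemidirectProduct.inr (φ g) = 1
    rw [this, map_one]
  have hk2 : φ.ker ≤ ψ2.ker := by
    intro g hg
    have h : ψ1 g = 1 := hk1 hg
    show (MulAut.conj (SemidirectProduct.inl f : K)) (ψ1 g) = 1
    rw [h, map_one]
  let l1 : Lifts π φ := ⟨ψ1, Subgroup.isOpen_mono hk1 hφo, fun g => by
    show SemidirectProduct.rightHom (SemidirectProduct.inr (φ g)) = φ g
    exact SemidirectProduct.rightHom_inr _⟩
  let l2 : Lifts π φ := ⟨ψ2, Subgroup.isOpen_mono hk2 hφo, fun g => by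
    show SemidirectProduct.rightHom ((SemidirectProduct.inl f : K) * (SemidirectProduct.inr (φ g)) *
      (SemidirectProduct.inl f : K)⁻¹) = φ g
    rw [map_mul, map_mul, map_inv, SemidirectProduct.rightHom_inl,
      SemidirectProduct.rightHom_inr, one_mul, inv_one, mul_one]⟩
  have hl : l1 = l2 := by
    have hsub : Subsingleton (Lifts π φ) := (Nat.card_eq_one_iff_unique.mp h1).1
    exact hsub.elim _ _
  have h3 : ψ1 x = ψ2 x := by
    have := congrArg (fun l : Lifts π φ => l.1 x) hl
    exact this
  have h4 : (ψ1 x).left 1 = (ψ2 x).left 1 := by rw [h3]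
  have h5 : (ψ1 x).left 1 = 1 := rfl
  have h6 : (ψ2 x).left 1 = a := by
    show ((SemidirectProduct.inl f : K) * (SemidirectProduct.inr (φ x)) *
      (SemidirectProduct.inl f : K)⁻¹).left 1 = a
    rw [SemidirectProduct.mul_left, SemidirectProduct.mul_left, SemidirectProduct.mul_right,
      SemidirectProduct.left_inl, SemidirectProduct.left_inr, map_one, mul_one,
      SemidirectProduct.right_inl, SemidirectProduct.right_inr, one_mul,
      SemidirectProduct.inv_left, SemidirectProduct.right_inl, SemidirectProduct.left_inl,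
      inv_one, map_one]
    show f 1 * (f ((φ x)⁻¹ • (1 : Q)))⁻¹ = a
    have h7 : (φ x)⁻¹ • (1 : Q) ≠ 1 := by
      rw [smul_eq_mul, mul_one]
      exact inv_ne_one.mpr hφx
    have h8 : f 1 = a := by simp [f]
    have h9 : f ((φ x)⁻¹ • (1 : Q)) = 1 := by
      simp only [f]
      exact Pi.mulSingle_eq_of_ne (M := fun _ : Q => A) h7 a
    rw [h8, h9, inv_one, mul_one]
  rw [h5, h6] at h4
  exact ha h4.symm

end Helper575.FF.SL5
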