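import Mathlib
import Pool.Agent.Helper575.FF.Base

set_option autoImplicit false

namespace Helper575.FF.SL6



theorem L6_r {Q : Type} [Group Q] (T : Subgroup Q) :
    ∃ r : Q ⧸ T → Q, (∀ x, ((r x : Q) : Q ⧸ T) = x) ∧ r ((1 : Q) : Q ⧸ T) = 1 := by
  classical
  refine ⟨fun x => if x = ((1 : Q) : Q ⧸ T) then 1 else x.out, ?_, ?_⟩
  · intro x
    by_cases h : x = ((1 : Q) : Q ⧸ T)
    · simp only [if_pos h]
      exact h.symm
    · simp only [if_neg h]
      exact QuotientGroup.out_eq' x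
  · simp

/-- cocycle count for finite groups: sections of the permutational wreath product. -/
theorem L6 (Q : Type) [Group Q] [Finite Q] (T : Subgroup Q) (p : ℕ) [Fact p.Prime] :
    Nat.card (T →* Multiplicative (ZMod p)) * p ^ (T.index) ≤
      p * Nat.card {s : Q →* ((Q ⧸ T → Multiplicative (ZMod p)) ⋊[mulAutArrow] Q) //
        ∀ q, (s q).right = q} := by
  classical
  obtain ⟨r, hr, hr1⟩ := L6_r T
  have hmem : ∀ (q : Q) (x : Q ⧸ T), (r x)⁻¹ * q * r (q⁻¹ • x) ∈ T := by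
    intro q x
    rw [mul_assoc, ← QuotientGroup.eq, hr]
    show x = q • ((r (q⁻¹ • x) : Q) : Q ⧸ T)
    rw [hr, smul_inv_smul]
  let z : (T →* Multiplicative (ZMod p)) → Q → (Q ⧸ T) → Multiplicative (ZMod p) :=
    fun χ q x => χ ⟨(r x)⁻¹ * q * r (q⁻¹ • x), hmem q x⟩
  have hz : ∀ χ q q' x, z χ (q * q') x = z χ q x * z χ q' (q⁻¹ • x) := by
    intro χ q q' x
    show χ _ = χ _ * χ _
    rw [← map_mul]
    congr 1
    apply Subtype.ext
    show (r x)⁻¹ * (q * q') * r ((q * q')⁻¹ • x) =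
      (r x)⁻¹ * q * r (q⁻¹ • x) * ((r (q⁻¹ • x))⁻¹ * q' * r (q'⁻¹ • q⁻¹ • x))
    rw [mul_inv_rev, mul_smul]
    group
  have hSmul : ∀ (χ : T →* Multiplicative (ZMod p)) (f : Q ⧸ T → Multiplicative (ZMod p)) (q q' : Q),
      (⟨f * z χ (q * q') * (mulAutArrow (q * q') f)⁻¹, q * q'⟩ :
        (Q ⧸ T → Multiplicative (ZMod p)) ⋊[mulAutArrow] Q) =
      ⟨f * z χ q * (mulAutArrow q f)⁻¹, q⟩ * ⟨f * z χ q' * (mulAutArrow q' f)⁻¹, q'⟩ := by
    intro χ f q q'
    apply SemidirectProduct.ext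
    · funext x
      show f x * z χ (q * q') x * (f ((q * q')⁻¹ • x))⁻¹ =
        (f x * z χ q x * (f (q⁻¹ • x))⁻¹) *
          (f (q⁻¹ • x) * z χ q' (q⁻¹ • x) * (f (q'⁻¹ • q⁻¹ • x))⁻¹)
      rw [hz, mul_inv_rev, mul_smul]
      group
    · rfl
  let S : (T →* Multiplicative (ZMod p)) → (Q ⧸ T → Multiplicative (ZMod p)) →
      (Q →* ((Q ⧸ T → Multiplicative (ZMod p)) ⋊[mulAutArrow] Q)) := fun χ f =>
    MonoidHom.mk' (fun q => ⟨f * z χ q * (mulAutArrow q f)⁻¹, q⟩) (hSmul χ f)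
  let Φ : (T →* Multiplicative (ZMod p)) × (Q ⧸ T → Multiplicative (ZMod p)) →
      Multiplicative (ZMod p) × {s : Q →* ((Q ⧸ T → Multiplicative (ZMod p)) ⋊[mulAutArrow] Q) //
        ∀ q, (s q).right = q} := fun c => (c.2 ((1 : Q) : Q ⧸ T), ⟨S c.1 c.2, fun q => rfl⟩)
  have hinj : Function.Injective Φ := by
    rintro ⟨χ, f⟩ ⟨χ', f'⟩ h
    have h1 : f ((1 : Q) : Q ⧸ T) = f' ((1 : Q) : Q ⧸ T) := congrArg Prod.fst h
    have h2 : S χ f = S χ' f' := congrArg Subtype.val (congrArg Prod.snd h)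
    have h3 : ∀ q x, f x * z χ q x * (f (q⁻¹ • x))⁻¹ = f' x * z χ' q x * (f' (q⁻¹ • x))⁻¹ := by
      intro q x
      have h4 := congrArg (fun s => (s q).left x) h2
      exact h4
    have hχ : χ = χ' := by
      ext1 t
      have h4 := h3 t ((1 : Q) : Q ⧸ T)
      have h5 : ((t : Q)⁻¹ • ((1 : Q) : Q ⧸ T)) = ((1 : Q) : Q ⧸ T) := by
        show (((t : Q)⁻¹ * 1 : Q) : Q ⧸ T) = ((1 : Q) : Q ⧸ T)
        rw [QuotientGroup.eq]
        simp
      have h6 : ∀ ψ : T →* Multiplicative (ZMod p), z ψ t ((1 : Q) : Q ⧸ T) = ψ t := by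
        intro ψ
        show ψ _ = ψ t
        congr 1
        apply Subtype.ext
        show (r ((1 : Q) : Q ⧸ T))⁻¹ * (t : Q) * r ((t : Q)⁻¹ • ((1 : Q) : Q ⧸ T)) = t
        rw [h5, hr1]
        group
      rw [h6, h6, h5, h1] at h4
      exact mul_left_cancel (mul_right_cancel h4)
    subst hχ
    have hf : f = f' := by
      funext x
      have h4 := h3 (r x) x
      have h5 : ((r x)⁻¹ • x) = ((1 : Q) : Q ⧸ T) := by
        rw [inv_smul_eq_iff]
        show x = (((r x) * 1 : Q) : Q ⧸ T)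
        rw [mul_one, hr]
      rw [h5, h1] at h4
      have h7 := mul_right_cancel h4
      exact mul_right_cancel h7
    rw [hf]
  haveI : Finite (Q ⧸ T) := inferInstance
  haveI : NeZero p := ⟨(Fact.out : p.Prime).ne_zero⟩
  haveI hA : Finite (Multiplicative (ZMod p)) := Finite.of_equiv (ZMod p) Multiplicative.ofAdd
  haveI hG : Finite ((Q ⧸ T → Multiplicative (ZMod p)) ⋊[mulAutArrow] Q) :=
    Finite.of_injective (fun g => (g.left, g.right)) (by
      intro a b hab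
      exact SemidirectProduct.ext (congrArg Prod.fst hab) (congrArg Prod.snd hab))
  haveI hS : Finite (Q →* ((Q ⧸ T → Multiplicative (ZMod p)) ⋊[mulAutArrow] Q)) :=
    Finite.of_injective (fun s => (s : Q → _)) DFunLike.coe_injective
  have hcard := Nat.card_le_card_of_injective Φ hinj
  rw [Nat.card_prod, Nat.card_prod, Nat.card_fun] at hcard
  have hAc : Nat.card (Multiplicative (ZMod p)) = p := by
    rw [Nat.card_congr Multiplicative.toAdd, Nat.card_zmod]
  rw [hAc] at hcard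
  exact hcard

end Helper575.FF.SL6
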