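import Mathlib
import Pool.Agent.Helper575.FF.Base

set_option autoImplicit false

namespace Helper575.FF.SL7



theorem L7 {G : Type} [Group G] [TopologicalSpace G] [IsTopologicalGroup G] (hU : Unif G)
    (hpow : ∀ (A X : Type) [Group A] [Finite A] [Finite X],
      Nat.card (DHom G (X → A)) = Nat.card (DHom G A) ^ Nat.card X)
    (p : ℕ) [Fact p.Prime] (hp : Nat.card (DHom G (Multiplicative (ZMod p))) ≤ p)
    (Q : Type) [Group Q] [Finite Q] (φ : G →* Q) (hφ : IsOpen (φ.ker : Set G))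
    (hs : Function.Surjective φ) (T : Subgroup Q)
    (h6 : Nat.card (T →* Multiplicative (ZMod p)) * p ^ (T.index) ≤
      p * Nat.card {s : Q →* ((Q ⧸ T → Multiplicative (ZMod p)) ⋊[mulAutArrow] Q) //
        ∀ q, (s q).right = q}) :
    Nat.card (T →* Multiplicative (ZMod p)) ≤ p := by
  classical
  have : NeZero p := ⟨(Fact.out : p.Prime).ne_zero⟩
  have : Finite (Multiplicative (ZMod p)) := inferInstanceAs (Finite (ZMod p))
  have hfinK : Finite ((Q ⧸ T → Multiplicative (ZMod p)) ⋊[mulAutArrow] Q) :=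
    Finite.of_equiv _ (SemidirectProduct.equivProd (φ := (mulAutArrow : Q →* MulAut (Q ⧸ T → Multiplicative (ZMod p))))).symm
  have hcard := hU.2 ((Q ⧸ T → Multiplicative (ZMod p)) ⋊[mulAutArrow] Q) Q
    SemidirectProduct.rightHom SemidirectProduct.rightHom_surjective φ hφ
  -- transport
  let inl' : (Q ⧸ T → Multiplicative (ZMod p)) →*
    ((Q ⧸ T → Multiplicative (ZMod p)) ⋊[mulAutArrow] Q) := SemidirectProduct.inl
  let e : (Q ⧸ T → Multiplicative (ZMod p)) ≃*
      (SemidirectProduct.rightHom :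
        ((Q ⧸ T → Multiplicative (ZMod p)) ⋊[mulAutArrow] Q) →* Q).ker :=
    (MonoidHom.ofInjective (f := inl') SemidirectProduct.inl_injective).trans
      (MulEquiv.subgroupCongr SemidirectProduct.range_inl_eq_ker_rightHom)
  have hker : ∀ (K1 K2 : Type) [Group K1] [Group K2] (e : K1 ≃* K2) (ψ : G →* K1),
      (e.toMonoidHom.comp ψ).ker = ψ.ker := by
    intro K1 K2 _ _ e ψ
    ext g
    simp [MonoidHom.mem_ker]
  have hcong : Nat.card (DHom G (SemidirectProduct.rightHom :
        ((Q ⧸ T → Multiplicative (ZMod p)) ⋊[mulAutArrow] Q) →* Q).ker) =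
      Nat.card (DHom G (Q ⧸ T → Multiplicative (ZMod p))) := by
    refine Nat.card_congr ?_
    refine
      { toFun := fun ψ => ⟨e.symm.toMonoidHom.comp ψ.1, ?_⟩
        invFun := fun ψ => ⟨e.toMonoidHom.comp ψ.1, ?_⟩
        left_inv := ?_
        right_inv := ?_ }
    · rw [hker]; exact ψ.2
    · rw [hker]; exact ψ.2
    · intro ψ
      apply Subtype.ext
      refine MonoidHom.ext fun g => ?_
      exact e.apply_symm_apply (ψ.1 g)
    · intro ψ
      apply Subtype.ext
      refine MonoidHom.ext fun g => ?_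
      exact e.symm_apply_apply (ψ.1 g)
  have := hU.1 ((Q ⧸ T → Multiplicative (ZMod p)) ⋊[mulAutArrow] Q)
  have : Finite (Lifts (SemidirectProduct.rightHom :
        ((Q ⧸ T → Multiplicative (ZMod p)) ⋊[mulAutArrow] Q) →* Q) φ) := by
    refine Finite.of_injective
      (β := DHom G ((Q ⧸ T → Multiplicative (ZMod p)) ⋊[mulAutArrow] Q))
      (fun ψ => ⟨ψ.1, ψ.2.1⟩) ?_
    intro a b hab
    apply Subtype.ext
    have h := congrArg (fun x : DHom G ((Q ⧸ T → Multiplicative (ZMod p)) ⋊[mulAutArrow] Q) => x.1) hab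
    exact h
  have hle : Nat.card {s : Q →* ((Q ⧸ T → Multiplicative (ZMod p)) ⋊[mulAutArrow] Q) //
        ∀ q, (s q).right = q} ≤ Nat.card (Lifts (SemidirectProduct.rightHom :
        ((Q ⧸ T → Multiplicative (ZMod p)) ⋊[mulAutArrow] Q) →* Q) φ) := by
    refine Nat.card_le_card_of_injective
      (fun s => (⟨s.1.comp φ, ?_, ?_⟩ : Lifts (SemidirectProduct.rightHom :
        ((Q ⧸ T → Multiplicative (ZMod p)) ⋊[mulAutArrow] Q) →* Q) φ)) ?_
    · refine Subgroup.isOpen_mono ?_ hφ
      intro g hg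
      rw [MonoidHom.mem_ker] at hg ⊢
      simp [hg]
    · intro g
      exact s.2 (φ g)
    · intro a b hab
      apply Subtype.ext
      have h1 : a.1.comp φ = b.1.comp φ := Subtype.ext_iff.1 hab
      exact (MonoidHom.cancel_right hs).1 h1
  have hX := hpow (Multiplicative (ZMod p)) (Q ⧸ T)
  have hidx : Nat.card (Q ⧸ T) = T.index := rfl
  have h7 : Nat.card {s : Q →* ((Q ⧸ T → Multiplicative (ZMod p)) ⋊[mulAutArrow] Q) //
        ∀ q, (s q).right = q} ≤ p ^ T.index := by
    refine hle.trans ?_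
    rw [hcard, hcong, hX, hidx]
    exact Nat.pow_le_pow_left hp _
  have h8 := h6.trans (Nat.mul_le_mul_left p h7)
  exact Nat.le_of_mul_le_mul_right h8 (pow_pos (Fact.out : p.Prime).pos _)

end Helper575.FF.SL7
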