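import Mathlib
import Pool.Agent.Helper575.FF.Base

set_option autoImplicit false

namespace Helper575.FF.SL8



theorem L8_char (p : ℕ) [Fact p.Prime] (T : Type) [Group T] [Finite T] (hT : IsPGroup p T)
    (M : Subgroup T) (hM : IsCoatom M) :
    ∃ χ : T →* Multiplicative (ZMod p), χ.ker = M := by
  have hp : p.Prime := Fact.out
  have hnil : Group.IsNilpotent T := hT.isNilpotent
  have hMn : M.Normal := Subgroup.NormalizerCondition.normal_of_coatom M
    Group.normalizerCondition_of_isNilpotent hM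
  have hQ : IsPGroup p (T ⧸ M) := hT.to_quotient M
  have hcard : Nat.card (T ⧸ M) = p := by
    obtain ⟨n, hn⟩ := IsPGroup.iff_card.1 hQ
    have hn0 : n ≠ 0 := by
      rintro rfl
      rw [pow_zero] at hn
      have h1 : M.index = 1 := hn
      exact hM.1 (Subgroup.index_eq_one.1 h1)
    have hdvd : p ^ 1 ∣ Nat.card (T ⧸ M) := by
      rw [hn]
      exact pow_dvd_pow p (by omega)
    obtain ⟨K, hK⟩ := Sylow.exists_subgroup_card_pow_prime p hdvd
    rw [pow_one] at hK
    have h1 : M ≤ K.comap (QuotientGroup.mk' M) := by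
      intro x hx
      rw [Subgroup.mem_comap]
      have h2 : (QuotientGroup.mk' M) x = 1 := (QuotientGroup.eq_one_iff x).2 hx
      rw [h2]
      exact K.one_mem
    have hsurj := QuotientGroup.mk'_surjective M
    have hmap : (K.comap (QuotientGroup.mk' M)).map (QuotientGroup.mk' M) = K :=
      Subgroup.map_comap_eq_self_of_surjective hsurj K
    rcases hM.le_iff.1 h1 with h2 | h2
    · rw [h2, Subgroup.map_top_of_surjective _ hsurj] at hmap
      rw [← hmap, Subgroup.card_top] at hK
      exact hK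
    · exfalso
      have h3 : K = ⊥ := by
        rw [← hmap, h2, Subgroup.map_eq_bot_iff, QuotientGroup.ker_mk']
      rw [h3, Subgroup.card_bot] at hK
      exact hp.one_lt.ne hK
  have hcard2 : Nat.card (Multiplicative (ZMod p)) = p := by
    rw [Nat.card_congr Multiplicative.toAdd, Nat.card_zmod]
  let e : T ⧸ M ≃* Multiplicative (ZMod p) := mulEquivOfPrimeCardEq hcard hcard2
  refine ⟨e.toMonoidHom.comp (QuotientGroup.mk' M), ?_⟩
  ext x
  rw [MonoidHom.mem_ker]
  change e ((QuotientGroup.mk' M) x) = 1 ↔ x ∈ M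
  rw [EmbeddingLike.map_eq_one_iff]
  exact QuotientGroup.eq_one_iff x

theorem L8_le (p : ℕ) [Fact p.Prime] (T : Type) [Group T] [Finite T]
    (h : Nat.card (T →* Multiplicative (ZMod p)) ≤ p)
    (χ χ' : T →* Multiplicative (ZMod p)) (hχ : χ.ker ≠ ⊤) : χ.ker ≤ χ'.ker := by
  have hp : p.Prime := Fact.out
  have hcard2 : Nat.card (Multiplicative (ZMod p)) = p := by
    rw [Nat.card_congr Multiplicative.toAdd, Nat.card_zmod]
  have hfin : Finite (T →* Multiplicative (ZMod p)) := DFunLike.finite _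
  have h1 : χ ^ p = 1 := by
    ext x
    rw [MonoidHom.pow_apply]
    have h2 := pow_card_eq_one' (x := χ x)
    rw [hcard2] at h2
    rw [h2]
    rfl
  have h2 : χ ≠ 1 := by
    rintro rfl
    apply hχ
    exact MonoidHom.ker_one
  have h3 : orderOf χ = p := orderOf_eq_prime h1 h2
  have h4 : Nat.card (Subgroup.zpowers χ) = p := by rw [Nat.card_zpowers, h3]
  have h5 : Subgroup.zpowers χ = ⊤ := Subgroup.eq_top_of_le_card _ (by rw [h4]; exact h)
  have h6 : χ' ∈ Subgroup.zpowers χ := by rw [h5]; trivial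
  obtain ⟨k, rfl⟩ := Subgroup.mem_zpowers_iff.1 h6
  intro x hx
  rw [MonoidHom.mem_ker] at hx ⊢
  rw [MonoidHom.zpow_apply, hx, one_zpow]

theorem L8 (p : ℕ) [Fact p.Prime] (T : Type) [Group T] [Finite T] (hT : IsPGroup p T)
    (h : Nat.card (T →* Multiplicative (ZMod p)) ≤ p) : IsCyclic T := by
  have huniq : ∀ M M' : Subgroup T, IsCoatom M → IsCoatom M' → M = M' := by
    intro M M' hM hM'
    obtain ⟨χ, hχ⟩ := L8_char p T hT M hM
    obtain ⟨χ', hχ'⟩ := L8_char p T hT M' hM'
    have h1 : M ≤ M' := by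
      rw [← hχ, ← hχ']
      exact L8_le p T h χ χ' (by rw [hχ]; exact hM.1)
    rcases hM.le_iff.1 h1 with h2 | h2
    · exact absurd h2 hM'.1
    · exact h2.symm
  rcases eq_top_or_exists_le_coatom (⊥ : Subgroup T) with h1 | ⟨M, hM, _⟩
  · refine ⟨1, fun x => ?_⟩
    have h2 : x ∈ (⊤ : Subgroup T) := trivial
    rw [← h1, Subgroup.mem_bot] at h2
    rw [h2]
    exact ⟨0, by simp⟩
  · obtain ⟨t, ht⟩ : ∃ t, t ∉ M := by
      by_contra hcon
      push Not at hcon
      exact hM.1 (Subgroup.eq_top_iff' M |>.2 hcon)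
    refine ⟨t, fun x => ?_⟩
    rcases eq_top_or_exists_le_coatom (Subgroup.zpowers t) with h1 | ⟨M', hM', hle⟩
    · have h2 : x ∈ Subgroup.zpowers t := by rw [h1]; trivial
      exact h2
    · exfalso
      apply ht
      rw [huniq M M' hM hM']
      exact hle (Subgroup.mem_zpowers t)

end Helper575.FF.SL8
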