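import Mathlib
import Pool.Agent.Helper575.FF.Base

set_option autoImplicit false

namespace Helper575.FF.SL9



theorem L9_cent (Q : Type) [Group Q] [Finite Q] [IsZGroup Q] (z : Q) (hz : z ∈ commutator Q)
    (hc : z ∈ Subgroup.center Q) : z = 1 := by
  haveI hcyc : IsCyclic (commutator Q) := IsZGroup.isCyclic_commutator Q
  letI : CommGroup (commutator Q) := hcyc.commGroup
  have hcop := IsZGroup.coprime_commutator_index Q
  have hV := MonoidHom.transfer_eq_pow (MonoidHom.id (commutator Q)) z (by
    intro k g₀ _
    rw [Subgroup.mem_center_iff] at hc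
    have h1 : g₀ * z ^ k = z ^ k * g₀ := by
      have : Commute g₀ z := hc g₀
      exact this.pow_right k
    rw [mul_assoc, ← h1, inv_mul_cancel_left])
  have hker : (MonoidHom.transfer (MonoidHom.id (commutator Q))) z = 1 :=
    Abelianization.commutator_subset_ker _ hz
  rw [hV] at hker
  have h1 : z ^ (commutator Q).index = 1 := by
    have := congrArg Subtype.val hker
    simpa using this
  have h2 : z ^ Nat.card (commutator Q) = 1 := by
    have : (⟨z, hz⟩ : commutator Q) ^ Nat.card (commutator Q) = 1 := pow_card_eq_one'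
    exact congrArg Subtype.val this
  have h3 : orderOf z ∣ 1 := by
    rw [← hcop.gcd_eq_one]
    exact Nat.dvd_gcd (orderOf_dvd_of_pow_eq_one h2) (orderOf_dvd_of_pow_eq_one h1)
  rw [Nat.dvd_one, orderOf_eq_one_iff] at h3
  exact h3

theorem L9 {G : Type} [Group G] [TopologicalSpace G] [IsTopologicalGroup G] (hU : Unif G)
    (hsol : ∀ (K : Type) [Group K] [Finite K] [Group.IsSolvable K],
      Nat.card (DHom G K) = Nat.card K)
    (hZ : ∀ (Q : Type) [Group Q] [Finite Q] (φ : G →* Q), IsOpen (φ.ker : Set G) →
      Function.Surjective φ → IsZGroup Q)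
    (Q : Type) [Group Q] [Finite Q] (φ : G →* Q) (hφ : IsOpen (φ.ker : Set G))
    (hs : Function.Surjective φ) : IsCyclic Q := by
  classical
  haveI hZQ : IsZGroup Q := hZ Q φ hφ hs
  by_cases hN : commutator Q = ⊥
  · apply isCyclic_of_injective (Abelianization.of : Q →* Abelianization Q)
    rw [← MonoidHom.ker_eq_bot_iff, Abelianization.ker_of, hN]
  · exfalso
    obtain ⟨H, hH⟩ := Subgroup.exists_right_complement'_of_coprime
      (IsZGroup.coprime_commutator_index Q)
    set π : Q →* (Q ⧸ commutator Q) := QuotientGroup.mk' (commutator Q) with hπ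
    have hker : π.ker = commutator Q := QuotientGroup.ker_mk' _
    let e : (Q ⧸ commutator Q) ≃* H := hH.symm.QuotientMulEquiv
    have he : ∀ x : Q ⧸ commutator Q, π ((e x : H) : Q) = x := by
      intro x
      obtain ⟨h, rfl⟩ := e.symm.surjective x
      rw [MulEquiv.apply_symm_apply]
      rfl
    -- the number of lifts
    have hopen : IsOpen ((π.comp φ).ker : Set G) := by
      refine Subgroup.isOpen_mono ?_ hφ
      intro g hg
      rw [MonoidHom.mem_ker] at hg ⊢
      rw [MonoidHom.comp_apply, hg, map_one]
    have hcard := hU.2 Q (Q ⧸ commutator Q) π (QuotientGroup.mk'_surjective _) (π.comp φ) hopen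
    rw [hsol π.ker, hker] at hcard
    -- finiteness
    have hfQ : Finite (DHom G Q) := hU.1 Q
    haveI hfin : Finite (Lifts π (π.comp φ)) := by
      refine @Finite.of_injective (Lifts π (π.comp φ)) (DHom G Q) hfQ (fun ψ => ⟨ψ.1, ψ.2.1⟩) ?_
      intro a b hab
      exact Subtype.ext (congrArg (fun ψ : DHom G Q => ψ.1) hab)
    have hopen2 : ∀ ρ : Q →* Q, IsOpen ((ρ.comp φ).ker : Set G) := by
      intro ρ
      refine Subgroup.isOpen_mono ?_ hφ
      intro g hg
      rw [MonoidHom.mem_ker] at hg ⊢
      rw [MonoidHom.comp_apply, hg, map_one]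
    let ρ0 : Q →* Q := H.subtype.comp (e.toMonoidHom.comp π)
    let F : Option (commutator Q) → Lifts π (π.comp φ) := fun o => match o with
      | none => ⟨ρ0.comp φ, hopen2 _, fun g => he _⟩
      | some v => ⟨((MulAut.conj (v : Q)).toMonoidHom).comp φ, hopen2 _, fun g => by
          have h1 : π (v : Q) = 1 := by
            rw [← MonoidHom.mem_ker, hker]; exact v.2
          show π ((v : Q) * φ g * (v : Q)⁻¹) = π (φ g)
          rw [map_mul, map_mul, map_inv, h1]; simp⟩
    have hns : ∀ v : commutator Q, F none ≠ F (some v) := by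
      intro v hv
      have h1 : ρ0.comp φ = ((MulAut.conj (v : Q)).toMonoidHom).comp φ := congrArg Subtype.val hv
      have h2 : H = ⊤ := by
        rw [eq_top_iff]
        intro q _
        obtain ⟨g, hg⟩ := hs ((v : Q)⁻¹ * q * v)
        have h3 := DFunLike.congr_fun h1 g
        have h4 : ((MulAut.conj (v : Q)).toMonoidHom).comp φ g = q := by
          show (v : Q) * φ g * (v : Q)⁻¹ = q
          rw [hg]; group
        rw [h4] at h3
        rw [← h3]
        exact (e (π (φ g))).2
      rw [h2, Subgroup.isComplement'_top_right] at hH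
      exact hN hH
    have hss : ∀ v w : commutator Q, F (some v) = F (some w) → v = w := by
      intro v w hvw
      have h1 : ((MulAut.conj (v : Q)).toMonoidHom).comp φ =
          ((MulAut.conj (w : Q)).toMonoidHom).comp φ := congrArg Subtype.val hvw
      have h2 : ((w : Q)⁻¹ * v) = 1 := by
        apply L9_cent
        · exact mul_mem (inv_mem w.2) v.2
        · rw [Subgroup.mem_center_iff]
          intro q
          obtain ⟨g, rfl⟩ := hs q
          have h3 : (v : Q) * φ g * (v : Q)⁻¹ = (w : Q) * φ g * (w : Q)⁻¹ := DFunLike.congr_fun h1 g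
          have h4 : φ g = (w : Q)⁻¹ * ((v : Q) * φ g * (v : Q)⁻¹) * w := by rw [h3]; group
          calc φ g * ((w : Q)⁻¹ * v) = ((w : Q)⁻¹ * ((v : Q) * φ g * (v : Q)⁻¹) * w) * ((w : Q)⁻¹ * v) := by
                rw [← h4]
            _ = (w : Q)⁻¹ * v * φ g := by group
      apply Subtype.ext
      have := mul_eq_one_iff_eq_inv.1 h2
      simpa using this.symm
    have hinj : Function.Injective F := by
      intro a b hab
      rcases a with _ | v <;> rcases b with _ | w
      · rfl
      · exact absurd hab (hns w)
      · exact absurd hab.symm (hns v)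
      · rw [hss v w hab]
    have h5 := Nat.card_le_card_of_injective F hinj
    rw [hcard, Finite.card_option] at h5
    omega

end Helper575.FF.SL9
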