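import Mathlib
import Pool.Agent.Helper575.FF.Base
import Pool.Agent.Helper575.FF.SL1
import Pool.Agent.Helper575.FF.SL1f
import Pool.Agent.Helper575.FF.SL2a
import Pool.Agent.Helper575.FF.SL2b
import Pool.Agent.Helper575.FF.SL3
import Pool.Agent.Helper575.FF.SL4
import Pool.Agent.Helper575.FF.SL4b
import Pool.Agent.Helper575.FF.SL5
import Pool.Agent.Helper575.FF.SL6
import Pool.Agent.Helper575.FF.SL7
import Pool.Agent.Helper575.FF.SL8
import Pool.Agent.Helper575.FF.SL9
import Pool.Agent.Helper575.FF.SL10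
import Pool.Agent.Helper575.FF.SL11
import Pool.Agent.Helper575.FF.SL12
import Pool.Agent.Helper575.FF.SL13
import Pool.Agent.Helper575.FF.SL14

set_option autoImplicit false

namespace Helper575.FF

theorem isOpen_ker_one {G K : Type} [Group G] [TopologicalSpace G] [Group K] :
    IsOpen (((1 : G →* K).ker : Subgroup G) : Set G) := by
  have : (((1 : G →* K).ker : Subgroup G) : Set G) = Set.univ := by
    ext x; simp
  rw [this]; exact isOpen_univ

theorem unif_of {G H P : Type} [Group G] [TopologicalSpace G] [IsTopologicalGroup G]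
    [Group H] [TopologicalSpace H] [IsTopologicalGroup H]
    [Group P] [TopologicalSpace P] [IsTopologicalGroup P]
    (iG : ContinuousMonoidHom G P) (iH : ContinuousMonoidHom H P) (hc : IsCoprod G H P iG iH)
    {n : ℕ} (hf : IsFreePro n P) : Unif G := by
  refine ⟨fun K _ _ => SL1f.L1f iG iH hc hf K, ?_⟩
  intro K Q _ _ _ _ π hπ φ hφ
  have h1 := SL1.L1 iG iH hc hf K Q π hπ φ hφ 1 isOpen_ker_one
  have h2 := SL1.L1 iG iH hc hf K Q π hπ 1 isOpen_ker_one 1 isOpen_ker_one
  have hpos : 0 < Nat.card (Lifts (G := H) π 1) := by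
    rcases Nat.eq_zero_or_pos (Nat.card (Lifts (G := H) π 1)) with h | h
    · rw [h, mul_zero] at h1
      have : 0 < (Nat.card π.ker) ^ n := pow_pos Nat.card_pos _
      omega
    · exact h
  have : Nat.card (Lifts π φ) = Nat.card (Lifts (G := G) π 1) :=
    Nat.eq_of_mul_eq_mul_right hpos (h1.trans h2.symm)
  rw [this, SL2a.L2a]

theorem card_mul_card {G H P : Type} [Group G] [TopologicalSpace G] [IsTopologicalGroup G]
    [Group H] [TopologicalSpace H] [IsTopologicalGroup H]
    [Group P] [TopologicalSpace P] [IsTopologicalGroup P]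
    (iG : ContinuousMonoidHom G P) (iH : ContinuousMonoidHom H P) (hc : IsCoprod G H P iG iH)
    {n : ℕ} (hf : IsFreePro n P) (K : Type) [Group K] [Finite K] :
    Nat.card (DHom G K) * Nat.card (DHom H K) = (Nat.card K) ^ n := by
  have h := SL1.L1 iG iH hc hf K Unit (1 : K →* Unit) (fun x => ⟨1, rfl⟩) 1 isOpen_ker_one 1
    isOpen_ker_one
  rw [SL2b.L2b, SL2b.L2b] at h
  rw [h]
  congr 1
  have : (1 : K →* Unit).ker = ⊤ := by
    ext x; simp
  rw [this]
  exact Subgroup.card_top

/-- A nontrivial uniform profinite group with `|Hom(G,C_p)| ≤ p` for all `p` is free of rank 1. -/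
theorem rank_one {G : Type} [Group G] [TopologicalSpace G] [IsTopologicalGroup G] [CompactSpace G]
    [T2Space G] [TotallyDisconnectedSpace G] (hU : Unif G)
    (hp : ∀ p : ℕ, p.Prime → Nat.card (DHom G (Multiplicative (ZMod p))) = p) :
    IsFreePro 1 G := by
  have hpow : ∀ (A X : Type) [Group A] [Finite A] [Finite X],
      Nat.card (DHom G (X → A)) = Nat.card (DHom G A) ^ Nat.card X :=
    fun A X _ _ _ => SL4b.L4b A X
  have hsol : ∀ (K : Type) [Group K] [Finite K] [Group.IsSolvable K],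
      Nat.card (DHom G K) = Nat.card K := fun K _ _ _ =>
    SL4.L4 (fun K Q _ _ _ _ π hπ => SL3.L3 hU K Q π hπ) hp K
  have hZ : ∀ (Q : Type) [Group Q] [Finite Q] (φ : G →* Q), IsOpen (φ.ker : Set G) →
      Function.Surjective φ → IsZGroup Q := by
    intro Q _ _ φ hφ hs
    rw [isZGroup_iff]
    intro p hp' P
    haveI : Fact p.Prime := ⟨hp'⟩
    exact SL8.L8 p P P.isPGroup' (SL7.L7 hU hpow p (hp p hp').le Q φ hφ hs P (SL6.L6 Q P p))
  have hcyc : ∀ (Q : Type) [Group Q] [Finite Q] (φ : G →* Q), IsOpen (φ.ker : Set G) →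
      Function.Surjective φ → IsCyclic Q := fun Q _ _ φ hφ hs => SL9.L9 hU hsol hZ Q φ hφ hs
  obtain ⟨g, hg⟩ := SL10.L10 hcyc
  exact SL11.L11 g hg (fun K _ _ k => SL12.L12 g hg hU.1 hsol K k)

theorem card_pow {G H P : Type} [Group G] [TopologicalSpace G] [IsTopologicalGroup G]
    [Group H] [TopologicalSpace H] [IsTopologicalGroup H]
    [Group P] [TopologicalSpace P] [IsTopologicalGroup P]
    (iG : ContinuousMonoidHom G P) (iH : ContinuousMonoidHom H P) (hc : IsCoprod G H P iG iH)
    {n : ℕ} (hf : IsFreePro n P) (p : ℕ) (hp : p.Prime) :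
    ∃ a b : ℕ, Nat.card (DHom G (Multiplicative (ZMod p))) = p ^ a ∧
      Nat.card (DHom H (Multiplicative (ZMod p))) = p ^ b ∧ a + b = n := by
  haveI : NeZero p := ⟨hp.ne_zero⟩
  haveI : Finite (Multiplicative (ZMod p)) := inferInstanceAs (Finite (ZMod p))
  have h := card_mul_card iG iH hc hf (Multiplicative (ZMod p))
  have hcard : Nat.card (Multiplicative (ZMod p)) = p := by
    rw [show Nat.card (Multiplicative (ZMod p)) = Nat.card (ZMod p) from rfl, Nat.card_zmod]
  rw [hcard] at h
  obtain ⟨a, ha, ha'⟩ := (Nat.dvd_prime_pow hp).1 (Dvd.intro _ h)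
  obtain ⟨b, hb, hb'⟩ := (Nat.dvd_prime_pow hp).1 (Dvd.intro_left _ h)
  refine ⟨a, b, ha', hb', ?_⟩
  rw [ha', hb', ← pow_add] at h
  exact Nat.pow_right_injective hp.two_le h

/-- If `G` is nontrivial and `|Hom(G,C_p)| ≤ p` for all `p`, then `G` is free of rank 1. -/
theorem le_case {G H P : Type} [Group G] [TopologicalSpace G] [IsTopologicalGroup G]
    [CompactSpace G] [T2Space G] [TotallyDisconnectedSpace G]
    [Group H] [TopologicalSpace H] [IsTopologicalGroup H]
    [Group P] [TopologicalSpace P] [IsTopologicalGroup P]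
    (iG : ContinuousMonoidHom G P) (iH : ContinuousMonoidHom H P) (hc : IsCoprod G H P iG iH)
    {n : ℕ} (hf : IsFreePro n P) [Nontrivial G]
    (hle : ∀ p : ℕ, p.Prime → Nat.card (DHom G (Multiplicative (ZMod p))) ≤ p) :
    IsFreePro 1 G := by
  have hU := unif_of iG iH hc hf
  refine rank_one hU (fun p hp => ?_)
  have hne := SL5.L5 hU (fun A X _ _ _ => SL4b.L4b A X) p hp
  obtain ⟨a, b, ha, hb, hab⟩ := card_pow iG iH hc hf p hp
  have h1 := hle p hp
  rw [ha] at h1 hne ⊢
  have : a ≠ 0 := by rintro rfl; simp at hne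
  have h2 : a ≤ 1 := by
    by_contra hcon
    push Not at hcon
    have := Nat.pow_lt_pow_right hp.one_lt hcon
    rw [pow_one] at this
    omega
  have : a = 1 := by omega
  rw [this, pow_one]

end Helper575.FF
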