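import Mathlib
import Pool.Agent.Helper575.FF.Base127

set_option autoImplicit false

namespace Helper575.FF.B127.SR3


theorem eval_bij
    (G : Type) [Group G] [TopologicalSpace G] (m : ℕ) (ι : Fin m → G)
    (h : ∀ (K : Type) [Group K] [Finite K], Nat.card (CH G K) = Nat.card K ^ m)
    (hg : ∀ (K : Type) [Group K] [Finite K] (φ : CH G K),
      φ.1.range ≤ Subgroup.closure (Set.range (fun i => φ.1 (ι i))))
    (K : Type) [Group K] [Finite K] (f : Fin m → K) :
    ∃! φ : CH G K, ∀ i, φ.1 (ι i) = f i := by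
  have hinj : Function.Injective (fun (φ : CH G K) (i : Fin m) => φ.1 (ι i)) := by
    intro φ ψ hφψ
    have h1 : ∀ i, φ.1 (ι i) = ψ.1 (ι i) := fun i => congrFun hφψ i
    have hker : (φ.1.prod ψ.1).ker = φ.1.ker ⊓ ψ.1.ker := by
      ext g
      simp [MonoidHom.mem_ker, Prod.ext_iff]
    have hopen : IsOpen ((φ.1.prod ψ.1).ker : Set G) := by
      rw [hker]
      exact φ.2.inter ψ.2
    have h2 := hg (K × K) (⟨φ.1.prod ψ.1, hopen⟩ : CH G (K × K))
    have h3 : Subgroup.closure (Set.range (fun i => (φ.1.prod ψ.1) (ι i))) ≤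
        (MonoidHom.fst K K).eqLocus (MonoidHom.snd K K) := by
      rw [Subgroup.closure_le]
      rintro _ ⟨i, rfl⟩
      exact h1 i
    apply Subtype.ext
    ext g
    have h4 : (φ.1.prod ψ.1) g ∈ (MonoidHom.fst K K).eqLocus (MonoidHom.snd K K) :=
      h3 (h2 ⟨g, rfl⟩)
    exact h4
  have hcard : Nat.card (Fin m → K) ≤ Nat.card (CH G K) := by
    rw [h K, Nat.card_fun, Nat.card_eq_fintype_card (α := Fin m), Fintype.card_fin]
  have hbij := hinj.bijective_of_nat_card_le hcard
  obtain ⟨φ, hφ, hu⟩ := hbij.existsUnique f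
  refine ⟨φ, fun i => congrFun hφ i, fun ψ hψ => hu ψ (funext hψ)⟩

end Helper575.FF.B127.SR3
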