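import Mathlib
import Pool.Agent.Helper575.FF.Main
import Pool.Agent.Helper575.FF.SR1
import Pool.Agent.Helper575.FF.SR2
import Pool.Agent.Helper575.FF.SR3
import Pool.Agent.Helper575.FF.SR4

set_option autoImplicit false

namespace Helper575.FF

/-- recognition of free profinite groups by counting homomorphisms -/
theorem free_of_count {H : Type} [Group H] [TopologicalSpace H] [IsTopologicalGroup H]
    [CompactSpace H] [T2Space H] [TotallyDisconnectedSpace H] (m : ℕ)
    (h : ∀ (K : Type) [Group K] [Finite K], Nat.card (DHom H K) = Nat.card K ^ m) :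
    IsFreePro m H := by
  have h' : ∀ (K : Type) [Group K] [Finite K], Nat.card (B127.CH H K) = Nat.card K ^ m := h
  obtain ⟨ι, hι⟩ := B127.SR2.exists_gens H m
    (fun Q _ _ φ hφ => B127.SR1.gen_of_count H m h' Q φ hφ)
  refine ⟨ι, fun K _ _ _ _ _ _ f => ?_⟩
  exact B127.SR4.free_of_fin H m ι (fun K _ _ f => B127.SR3.eval_bij H m ι h' hι K f) K f

theorem card_of_free {G : Type} [Group G] [TopologicalSpace G] [IsTopologicalGroup G]
    {m : ℕ} (hf : IsFreePro m G) (K : Type) [Group K] [Finite K] :
    Nat.card (DHom G K) = Nat.card K ^ m := by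
  obtain ⟨ι, hι⟩ := hf
  letI : TopologicalSpace K := ⊥
  haveI : DiscreteTopology K := ⟨rfl⟩
  let e : DHom G K → (Fin m → K) := fun φ i => φ.1 (ι i)
  have hcont : ∀ φ : DHom G K, Continuous φ.1 := by
    rintro ⟨φ, hφ⟩
    have h1 : ((φ.ker : Subgroup G) : Set G) ∈ nhds (1 : G) := hφ.mem_nhds (one_mem φ.ker)
    refine continuous_of_continuousAt_one φ ?_
    have h2 : nhds (φ 1) = pure (φ 1) := by rw [nhds_discrete]
    rw [ContinuousAt, h2, map_one, Filter.tendsto_pure]
    exact Filter.mem_of_superset h1 (fun x hx => hx)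
  have hopen : ∀ φ : ContinuousMonoidHom G K, IsOpen ((φ.toMonoidHom.ker : Subgroup G) : Set G) := by
    intro φ
    have : ((φ.toMonoidHom.ker : Subgroup G) : Set G) = φ ⁻¹' {1} := by
      ext x; simp [MonoidHom.mem_ker]
    rw [this]
    exact (isOpen_discrete _).preimage φ.continuous_toFun
  have hb : Function.Bijective e := by
    constructor
    · intro φ ψ h
      obtain ⟨Φ, _, h2⟩ := hι K (e φ)
      have h3 := h2 ⟨φ.1, hcont φ⟩ (fun i => rfl)
      have h4 := h2 ⟨ψ.1, hcont ψ⟩ (fun i => (congrFun h i).symm)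
      apply Subtype.ext
      ext x
      have h5 := h3.trans h4.symm
      exact DFunLike.congr_fun h5 x
    · intro f
      obtain ⟨Φ, h1, _⟩ := hι K f
      exact ⟨⟨Φ.toMonoidHom, hopen Φ⟩, funext h1⟩
  rw [Nat.card_eq_of_bijective e hb, Nat.card_fun, Nat.card_fin]

/-- complement of a free factor of rank one -/
theorem complement_free {G H P : Type} [Group G] [TopologicalSpace G] [IsTopologicalGroup G]
    [Group H] [TopologicalSpace H] [IsTopologicalGroup H]
    [CompactSpace H] [T2Space H] [TotallyDisconnectedSpace H]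
    [Group P] [TopologicalSpace P] [IsTopologicalGroup P]
    (iG : ContinuousMonoidHom G P) (iH : ContinuousMonoidHom H P) (hc : IsCoprod G H P iG iH)
    {n m : ℕ} (hf : IsFreePro n P) (hG : IsFreePro m G) : IsFreePro (n - m) H ∧ m ≤ n := by
  have hle : m ≤ n := by
    have h := card_mul_card iG iH hc hf (Multiplicative (ZMod 2))
    rw [card_of_free hG] at h
    have hd : Nat.card (Multiplicative (ZMod 2)) ^ m ∣ Nat.card (Multiplicative (ZMod 2)) ^ n :=
      Dvd.intro _ h
    have h2 : Nat.card (Multiplicative (ZMod 2)) = 2 := by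
      rw [show Nat.card (Multiplicative (ZMod 2)) = Nat.card (ZMod 2) from rfl, Nat.card_zmod]
    rw [h2] at hd
    exact (Nat.pow_dvd_pow_iff_le_right (by norm_num)).1 hd
  refine ⟨free_of_count (n - m) (fun K _ _ => ?_), hle⟩
  have h := card_mul_card iG iH hc hf K
  rw [card_of_free hG] at h
  have hpos : 0 < Nat.card K ^ m := pow_pos Nat.card_pos _
  have h3 : Nat.card K ^ m * Nat.card (DHom H K) = Nat.card K ^ m * Nat.card K ^ (n - m) := by
    rw [h, ← pow_add]; congr 1; omega
  exact Nat.eq_of_mul_eq_mul_left hpos h3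

end Helper575.FF
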