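import Mathlib
import Pool.Agent.Helper575.FF.Base

set_option autoImplicit false

namespace Helper575.FF.SL10



theorem L10 {G : Type} [Group G] [TopologicalSpace G] [IsTopologicalGroup G] [CompactSpace G]
    [T2Space G] [TotallyDisconnectedSpace G]
    (hcyc : ∀ (Q : Type) [Group Q] [Finite Q] (φ : G →* Q), IsOpen (φ.ker : Set G) →
      Function.Surjective φ → IsCyclic Q) :
    ∃ g : G, ∀ (Q : Type) [Group Q] [Finite Q] (φ : G →* Q), IsOpen (φ.ker : Set G) →
      Function.Surjective φ → ∀ x : Q, x ∈ Subgroup.zpowers (φ g) := by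
  classical
  let I := {U : Subgroup G // U.Normal ∧ IsOpen (U : Set G)}
  let C : I → Set G := fun U => {g : G | ∀ y : G, ∃ k : ℤ, y⁻¹ * g ^ k ∈ U.1}
  have hne : Nonempty I := ⟨⟨⊤, inferInstance, isOpen_univ⟩⟩
  have hCeq : ∀ U : I, ∃ S : Set (G ⧸ U.1), C U = (QuotientGroup.mk : G → G ⧸ U.1) ⁻¹' S := by
    intro U
    haveI := U.2.1
    refine ⟨{q : G ⧸ U.1 | ∀ x : G ⧸ U.1, ∃ k : ℤ, x = q ^ k}, ?_⟩
    ext g
    simp only [C, Set.mem_setOf_eq, Set.mem_preimage]
    constructor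
    · intro h x
      obtain ⟨y, rfl⟩ := QuotientGroup.mk_surjective x
      obtain ⟨k, hk⟩ := h y
      refine ⟨k, ?_⟩
      rw [← QuotientGroup.mk_zpow]
      exact QuotientGroup.eq.mpr hk
    · intro h y
      obtain ⟨k, hk⟩ := h (QuotientGroup.mk y)
      refine ⟨k, ?_⟩
      rw [← QuotientGroup.mk_zpow] at hk
      exact QuotientGroup.eq.mp hk
  have hdisc : ∀ U : I, DiscreteTopology (G ⧸ U.1) := fun U =>
    QuotientGroup.discreteTopology U.2.2
  have hclosed : ∀ U : I, IsClosed (C U) := by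
    intro U
    obtain ⟨S, hS⟩ := hCeq U
    haveI := hdisc U
    rw [hS]
    exact (isClosed_discrete S).preimage QuotientGroup.continuous_mk
  have hnonempty : ∀ U : I, (C U).Nonempty := by
    intro U
    haveI := U.2.1
    haveI := hdisc U
    haveI : CompactSpace (G ⧸ U.1) := Quotient.compactSpace
    haveI : Finite (G ⧸ U.1) := finite_of_compact_of_discrete
    have hc : IsCyclic (G ⧸ U.1) := by
      refine hcyc (G ⧸ U.1) (QuotientGroup.mk' U.1) ?_ (QuotientGroup.mk'_surjective U.1)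
      rw [QuotientGroup.ker_mk']
      exact U.2.2
    obtain ⟨q, hq⟩ := hc.exists_generator
    obtain ⟨g, rfl⟩ := QuotientGroup.mk_surjective q
    refine ⟨g, fun y => ?_⟩
    obtain ⟨k, hk⟩ := Subgroup.mem_zpowers_iff.mp (hq (QuotientGroup.mk y))
    refine ⟨k, ?_⟩
    rw [← QuotientGroup.mk_zpow] at hk
    exact QuotientGroup.eq.mp hk.symm
  have hdir : Directed (· ⊇ ·) C := by
    intro U V
    haveI := U.2.1
    haveI := V.2.1
    refine ⟨⟨U.1 ⊓ V.1, inferInstance, ?_⟩, ?_, ?_⟩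
    · have := U.2.2.inter V.2.2
      simpa using this
    · intro g hg y
      obtain ⟨k, hk⟩ := hg y
      exact ⟨k, hk.1⟩
    · intro g hg y
      obtain ⟨k, hk⟩ := hg y
      exact ⟨k, hk.2⟩
  obtain ⟨g, hg⟩ := IsCompact.nonempty_iInter_of_directed_nonempty_isCompact_isClosed C hdir
    hnonempty (fun U => (hclosed U).isCompact) hclosed
  refine ⟨g, ?_⟩
  intro Q _ _ φ hφ hsurj x
  obtain ⟨y, rfl⟩ := hsurj x
  have h1 := Set.mem_iInter.mp hg ⟨φ.ker, inferInstance, hφ⟩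
  obtain ⟨k, hk⟩ := h1 y
  have h2 : φ (y⁻¹ * g ^ k) = 1 := hk
  rw [map_mul, map_inv, map_zpow, inv_mul_eq_one] at h2
  exact Subgroup.mem_zpowers_iff.mpr ⟨k, h2.symm⟩

end Helper575.FF.SL10
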