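import Mathlib
import Pool.Agent.Helper575.FF.Base

set_option autoImplicit false

namespace Helper575.FF.SL15



/-- procyclic abelianization gives few homs to `C_p` -/
theorem L15 {G : Type} [Group G] [TopologicalSpace G] [IsTopologicalGroup G]
    (hab : ∀ (A : Type) [CommGroup A] [Finite A] (φ : G →* A), IsOpen (φ.ker : Set G) →
      Function.Surjective φ → IsCyclic A) (p : ℕ) (hp : p.Prime) :
    Nat.card (DHom G (Multiplicative (ZMod p))) ≤ p := by
  classical
  have : Fact p.Prime := ⟨hp⟩
  have : NeZero p := ⟨hp.ne_zero⟩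
  have : Finite (Multiplicative (ZMod p)) := inferInstanceAs (Finite (ZMod p))
  have hcard : Nat.card (Multiplicative (ZMod p)) = p := by
    change Nat.card (ZMod p) = p
    simp
  have hpow : ∀ a : Multiplicative (ZMod p), a ^ p = 1 := by
    intro a
    have h := pow_card_eq_one' (x := a)
    rwa [hcard] at h
  by_cases hex : ∃ χ1 : DHom G (Multiplicative (ZMod p)), ∃ g0, χ1.1 g0 ≠ 1
  · obtain ⟨χ1, g0, hg0⟩ := hex
    have hinj : Function.Injective
        (fun χ : DHom G (Multiplicative (ZMod p)) => χ.1 g0) := by
      intro χ2 χ3 h23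
      have h23' : χ2.1 g0 = χ3.1 g0 := h23
      apply Subtype.ext
      refine MonoidHom.ext fun g1 => ?_
      by_contra hne
      let χ : G →* Multiplicative (ZMod p) := χ2.1 * χ3.1⁻¹
      have hχ : ∀ g, χ g = χ2.1 g * (χ3.1 g)⁻¹ := fun g => rfl
      have hχopen : IsOpen (χ.ker : Set G) := by
        refine Subgroup.isOpen_mono (H₁ := χ2.1.ker ⊓ χ3.1.ker) ?_ ?_
        · intro g hg
          rw [Subgroup.mem_inf, MonoidHom.mem_ker, MonoidHom.mem_ker] at hg
          rw [MonoidHom.mem_ker, hχ, hg.1, hg.2]
          simp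
        · rw [Subgroup.coe_inf]
          exact χ2.2.inter χ3.2
      have hχ0 : χ g0 = 1 := by rw [hχ, h23']; simp
      have hχ1 : χ g1 ≠ 1 := by
        rw [hχ]
        intro h
        apply hne
        exact mul_inv_eq_one.mp h
      let θ : G →* Multiplicative (ZMod p) × Multiplicative (ZMod p) := χ1.1.prod χ
      have hker : IsOpen (θ.rangeRestrict.ker : Set G) := by
        have : (θ.rangeRestrict.ker : Set G) = (χ1.1.ker : Set G) ∩ (χ.ker : Set G) := by
          ext g
          simp only [SetLike.mem_coe, MonoidHom.mem_ker, Set.mem_inter_iff]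
          constructor
          · intro h
            have h' := congrArg Subtype.val h
            exact ⟨congrArg Prod.fst h', congrArg Prod.snd h'⟩
          · rintro ⟨h1, h2⟩
            apply Subtype.ext
            exact Prod.ext h1 h2
        rw [this]
        exact χ1.2.inter hχopen
      have hcyc : IsCyclic θ.range := hab θ.range θ.rangeRestrict hker θ.rangeRestrict_surjective
      obtain ⟨r, hr⟩ := hcyc.exists_generator
      obtain ⟨k, hk⟩ := Subgroup.mem_zpowers_iff.mp (hr (θ.rangeRestrict g0))
      obtain ⟨l, hl⟩ := Subgroup.mem_zpowers_iff.mp (hr (θ.rangeRestrict g1))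
      have hk' : (r : Multiplicative (ZMod p) × Multiplicative (ZMod p)) ^ k = θ g0 := by
        rw [← Subgroup.coe_zpow, hk]; rfl
      have hl' : (r : Multiplicative (ZMod p) × Multiplicative (ZMod p)) ^ l = θ g1 := by
        rw [← Subgroup.coe_zpow, hl]; rfl
      have hk1 : (r : Multiplicative (ZMod p) × Multiplicative (ZMod p)).1 ^ k = χ1.1 g0 := by
        rw [← Prod.pow_fst, hk']; rfl
      have hk2 : (r : Multiplicative (ZMod p) × Multiplicative (ZMod p)).2 ^ k = 1 := by
        rw [← Prod.pow_snd, hk']; exact hχ0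
      have hl2 : (r : Multiplicative (ZMod p) × Multiplicative (ZMod p)).2 ^ l = χ g1 := by
        rw [← Prod.pow_snd, hl']; rfl
      have hnd : ¬ (p : ℤ) ∣ k := by
        rintro ⟨m, rfl⟩
        apply hg0
        rw [← hk1, zpow_mul, zpow_natCast, hpow, one_zpow]
      obtain ⟨u, v, huv⟩ := ((Nat.prime_iff_prime_int.mp hp).coprime_iff_not_dvd).mpr hnd
      have hb : (r : Multiplicative (ZMod p) × Multiplicative (ZMod p)).2 = 1 := by
        have h : (r : Multiplicative (ZMod p) × Multiplicative (ZMod p)).2 ^ (u * p + v * k) = 1 := by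
          rw [zpow_add, mul_comm u, mul_comm v, zpow_mul, zpow_mul, zpow_natCast, hpow, hk2]
          simp
        rw [huv, zpow_one] at h
        exact h
      apply hχ1
      rw [← hl2, hb, one_zpow]
    calc Nat.card (DHom G (Multiplicative (ZMod p)))
        ≤ Nat.card (Multiplicative (ZMod p)) := Nat.card_le_card_of_injective _ hinj
      _ = p := hcard
  · push Not at hex
    have hinj : Function.Injective
        (fun _ : DHom G (Multiplicative (ZMod p)) => (1 : Multiplicative (ZMod p))) := by
      intro χ2 χ3 _
      apply Subtype.ext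
      refine MonoidHom.ext fun g => ?_
      rw [hex χ2 g, hex χ3 g]
    calc Nat.card (DHom G (Multiplicative (ZMod p)))
        ≤ Nat.card (Multiplicative (ZMod p)) := Nat.card_le_card_of_injective _ hinj
      _ = p := hcard

end Helper575.FF.SL15
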