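import Mathlib
import Pool.Agent.Helper575.FF.Base

set_option autoImplicit false

namespace Helper575.FF.SL16



open scoped commutatorElement

lemma DHom_card_congr {G A B : Type} [Group G] [TopologicalSpace G] [Group A] [Group B]
    (e : A ≃* B) : Nat.card (DHom G A) = Nat.card (DHom G B) := by
  have key : ∀ {A B : Type} [Group A] [Group B] (e : A ≃* B) (φ : G →* A),
      IsOpen (φ.ker : Set G) → IsOpen (((e : A →* B).comp φ).ker : Set G) := by
    intro A B _ _ e φ h
    have : ((e : A →* B).comp φ).ker = φ.ker := by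
      ext x
      simp [MonoidHom.mem_ker]
    rw [this]; exact h
  refine Nat.card_congr ⟨fun φ => ⟨(e : A →* B).comp φ.1, key e φ.1 φ.2⟩,
    fun φ => ⟨(e.symm : B →* A).comp φ.1, key e.symm φ.1 φ.2⟩, ?_, ?_⟩
  · intro φ
    apply Subtype.ext
    ext x
    simp
  · intro φ
    apply Subtype.ext
    ext x
    simp

/-- units act on the additive group by multiplication -/
def affHom (F : Type) [Field F] : Fˣ →* MulAut (Multiplicative F) where
  toFun u :=
    { toFun := fun x => Multiplicative.ofAdd ((u : F) * Multiplicative.toAdd x)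
      invFun := fun x => Multiplicative.ofAdd (((u⁻¹ : Fˣ) : F) * Multiplicative.toAdd x)
      left_inv := fun x => by
        show Multiplicative.ofAdd (((u⁻¹ : Fˣ) : F) * ((u : F) * Multiplicative.toAdd x)) = x
        rw [← mul_assoc, Units.inv_mul, one_mul]
        rfl
      right_inv := fun x => by
        show Multiplicative.ofAdd ((u : F) * (((u⁻¹ : Fˣ) : F) * Multiplicative.toAdd x)) = x
        rw [← mul_assoc, Units.mul_inv, one_mul]
        rfl
      map_mul' := fun x y => by
        show Multiplicative.ofAdd ((u : F) * (Multiplicative.toAdd x + Multiplicative.toAdd y)) = _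
        rw [mul_add]
        rfl }
  map_one' := by
    ext x
    show Multiplicative.ofAdd (((1 : Fˣ) : F) * Multiplicative.toAdd x) = x
    rw [Units.val_one, one_mul]
    rfl
  map_mul' u v := by
    ext x
    show Multiplicative.ofAdd (((u * v : Fˣ) : F) * Multiplicative.toAdd x) =
      Multiplicative.ofAdd ((u : F) * ((v : F) * Multiplicative.toAdd x))
    rw [Units.val_mul, mul_assoc]

/-- the affine group of a field -/
abbrev Aff (F : Type) [Field F] : Type :=
  SemidirectProduct (Multiplicative F) Fˣ (affHom F)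

lemma aff_left {F : Type} [Field F] (x y : Aff F) :
    Multiplicative.toAdd (x * y).left =
      Multiplicative.toAdd x.left + (x.right : F) * Multiplicative.toAdd y.left := by
  rw [SemidirectProduct.mul_left]
  rfl

lemma aff_comm {F : Type} [Field F] (T : Subgroup (Aff F)) (hT : Group.IsNilpotent T)
    (t : Aff F) (ht : t ∈ T) (hc : t.right ≠ 1) (x : Aff F) (hx : x ∈ T) (hx1 : x.right = 1) :
    x = 1 := by
  by_contra hne
  obtain ⟨n, hn⟩ := Subgroup.nilpotent_iff_lowerCentralSeries.mp hT
  have key : ∀ n : ℕ, ∃ y : T, (y : Aff F).right = 1 ∧ (y : Aff F) ≠ 1 ∧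
      y ∈ Subgroup.lowerCentralSeries (⊤ : Subgroup T) n := by
    intro n
    induction n with
    | zero => exact ⟨⟨x, hx⟩, hx1, hne, by simp⟩
    | succ n ih =>
      obtain ⟨y, hy1, hy2, hy3⟩ := ih
      refine ⟨⁅y, (⟨t, ht⟩ : T)⁆, ?_, ?_, ?_⟩
      · have : ((⁅y, (⟨t, ht⟩ : T)⁆ : T) : Aff F) = ⁅(y : Aff F), t⁆ := rfl
        rw [this, commutatorElement_def]
        simp [hy1]
      · have : ((⁅y, (⟨t, ht⟩ : T)⁆ : T) : Aff F) = ⁅(y : Aff F), t⁆ := rfl
        rw [this]
        intro h
        rw [commutatorElement_eq_one_iff_mul_comm] at h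
        have h2 := congrArg (fun z : Aff F => Multiplicative.toAdd z.left) h
        simp only [aff_left, hy1, Units.val_one, one_mul] at h2
        have h3 : (1 - (t.right : F)) * Multiplicative.toAdd (y : Aff F).left = 0 := by
          linear_combination h2
        rcases mul_eq_zero.mp h3 with h4 | h4
        · apply hc
          ext
          rw [Units.val_one]
          linear_combination -h4
        · apply hy2
          apply SemidirectProduct.ext
          · exact h4
          · exact hy1
      · exact Subgroup.commutator_mem_commutator hy3 (Subgroup.mem_top _)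
  obtain ⟨y, -, hy2, hy3⟩ := key n
  rw [hn, Subgroup.mem_bot] at hy3
  exact hy2 (by rw [hy3]; rfl)

/-- pronilpotent uniform groups have few homs to `C_p` -/
theorem L16 {G : Type} [Group G] [TopologicalSpace G] [IsTopologicalGroup G] (hU : Unif G)
    (hpow : ∀ (A X : Type) [Group A] [Finite A] [Finite X],
      Nat.card (DHom G (X → A)) = Nat.card (DHom G A) ^ Nat.card X)
    (hnil : ∀ (Q : Type) [Group Q] [Finite Q] (φ : G →* Q), IsOpen (φ.ker : Set G) →
      Function.Surjective φ → Group.IsNilpotent Q)
    (hne : ∀ p : ℕ, p.Prime → Nat.card (DHom G (Multiplicative (ZMod p))) ≠ 1)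
    (p : ℕ) (hp : p.Prime) :
    Nat.card (DHom G (Multiplicative (ZMod p))) ≤ p := by
  classical
  haveI : Fact p.Prime := ⟨hp⟩
  let F := GaloisField p 2
  have hcardF : Nat.card F = p ^ 2 := GaloisField.card p 2 (by norm_num)
  haveI : Finite F := Nat.finite_of_card_ne_zero (by rw [hcardF]; exact pow_ne_zero _ hp.ne_zero)
  haveI : Finite (Aff F) := Finite.of_equiv _ SemidirectProduct.equivProd.symm
  haveI : Finite Fˣ := inferInstance
  -- a prime divisor of the order of the unit group
  have hcardU : Nat.card Fˣ = p ^ 2 - 1 := by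
    rw [Nat.card_units, hcardF]
  have hU1 : Nat.card Fˣ ≠ 1 := by
    rw [hcardU]
    have : 2 ≤ p := hp.two_le
    have : 4 ≤ p ^ 2 := by nlinarith
    omega
  obtain ⟨q, hq, hqd⟩ := Nat.exists_prime_and_dvd hU1
  haveI : Fact q.Prime := ⟨hq⟩
  obtain ⟨u, hu⟩ := exists_prime_orderOf_dvd_card' (G := Fˣ) q hqd
  have hz : Nat.card (Subgroup.zpowers u) = q := by rw [Nat.card_zpowers, hu]
  have hzq : Nat.card (Multiplicative (ZMod q)) = q := by
    rw [Nat.card_eq_fintype_card, Fintype.card_multiplicative, ZMod.card]
  let e : Multiplicative (ZMod q) ≃* Subgroup.zpowers u := mulEquivOfPrimeCardEq hzq hz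
  -- a nontrivial character
  obtain ⟨χ₀, g₀, hg₀⟩ : ∃ (χ : DHom G (Multiplicative (ZMod q))) (g : G), χ.1 g ≠ 1 := by
    by_contra hcon
    push Not at hcon
    apply hne q hq
    haveI := hU.1 (Multiplicative (ZMod q))
    rw [Nat.card_eq_one_iff_unique]
    refine ⟨⟨fun a b => ?_⟩, ⟨⟨1, ?_⟩⟩⟩
    · apply Subtype.ext
      ext x
      rw [hcon a x, hcon b x]
    · have : ((1 : G →* Multiplicative (ZMod q)).ker : Set G) = Set.univ := by
        ext x; simp [MonoidHom.mem_ker]
      rw [this]; exact isOpen_univ
  let χ : G →* Fˣ := (Subgroup.zpowers u).subtype.comp ((e : _ →* _).comp χ₀.1)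
  have hχker : χ.ker = χ₀.1.ker := by
    ext x
    simp [χ, MonoidHom.mem_ker]
  have hχ : IsOpen (χ.ker : Set G) := by rw [hχker]; exact χ₀.2
  have hχg : χ g₀ ≠ 1 := by
    intro h
    have : g₀ ∈ χ.ker := h
    rw [hχker] at this
    exact hg₀ this
  have hsurj : Function.Surjective (SemidirectProduct.rightHom : Aff F →* Fˣ) :=
    SemidirectProduct.rightHom_surjective
  have hl := hU.2 (Aff F) Fˣ SemidirectProduct.rightHom hsurj χ hχ
  -- the right hand side
  have h1 : Nat.card (DHom G (SemidirectProduct.rightHom : Aff F →* Fˣ).ker) =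
      Nat.card (DHom G (Multiplicative (ZMod p))) ^ 2 := by
    have e1 : Multiplicative F ≃* (SemidirectProduct.rightHom : Aff F →* Fˣ).ker := by
      rw [← SemidirectProduct.range_inl_eq_ker_rightHom]
      exact MonoidHom.ofInjective SemidirectProduct.inl_injective
    have hfr : Module.finrank (ZMod p) F = 2 := GaloisField.finrank p (by norm_num)
    haveI : Module.Finite (ZMod p) F := Module.Finite.of_finite
    let b := Module.finBasisOfFinrankEq (ZMod p) F hfr
    let e2 : F ≃+ (Fin 2 → ZMod p) := b.equivFun.toAddEquiv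
    let e3 : Multiplicative F ≃* (Fin 2 → Multiplicative (ZMod p)) :=
      { toFun := fun x i => Multiplicative.ofAdd (e2 (Multiplicative.toAdd x) i)
        invFun := fun y => Multiplicative.ofAdd (e2.symm fun i => Multiplicative.toAdd (y i))
        left_inv := fun x => by
          show Multiplicative.ofAdd (e2.symm (e2 (Multiplicative.toAdd x))) = x
          rw [AddEquiv.symm_apply_apply]
          rfl
        right_inv := fun y => by
          funext i
          show Multiplicative.ofAdd (e2 (e2.symm fun i => Multiplicative.toAdd (y i)) i) = y i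
          rw [AddEquiv.apply_symm_apply]
          rfl
        map_mul' := fun x y => by
          funext i
          show Multiplicative.ofAdd (e2 (Multiplicative.toAdd x + Multiplicative.toAdd y) i) = _
          rw [map_add]
          rfl }
    rw [← DHom_card_congr (G := G) e1, DHom_card_congr (G := G) e3, hpow (Multiplicative (ZMod p)) (Fin 2)]
    simp
  -- the upper bound
  have h2 : Nat.card (Lifts (SemidirectProduct.rightHom : Aff F →* Fˣ) χ) ≤ Nat.card F := by
    refine Nat.card_le_card_of_injective
      (fun ψ => Multiplicative.toAdd (ψ.1 g₀).left) ?_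
    have hcom : ∀ (ψ : Lifts (SemidirectProduct.rightHom : Aff F →* Fˣ) χ) (g : G),
        (1 - (χ g₀ : F)) * Multiplicative.toAdd (ψ.1 g).left =
          (1 - (χ g : F)) * Multiplicative.toAdd (ψ.1 g₀).left := by
      intro ψ g
      have hT : Group.IsNilpotent ψ.1.range := by
        refine hnil ψ.1.range ψ.1.rangeRestrict ?_ ψ.1.rangeRestrict_surjective
        rw [MonoidHom.ker_rangeRestrict]
        exact ψ.2.1
      have hr : ∀ x : G, (ψ.1 x).right = χ x := fun x => ψ.2.2 x
      have h := aff_comm ψ.1.range hT (ψ.1 g₀) ⟨g₀, rfl⟩ (by rw [hr]; exact hχg)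
        ⁅ψ.1 g, ψ.1 g₀⁆ ⟨⁅g, g₀⁆, by rw [map_commutatorElement]⟩ (by
          rw [commutatorElement_def]
          simp [mul_comm])
      rw [commutatorElement_eq_one_iff_mul_comm] at h
      have h3 := congrArg (fun z : Aff F => Multiplicative.toAdd z.left) h
      simp only [aff_left, hr] at h3
      linear_combination h3
    intro ψ₁ ψ₂ h12
    apply Subtype.ext
    ext1 g
    apply SemidirectProduct.ext
    · have ha := hcom ψ₁ g
      have hb := hcom ψ₂ g
      have h12' : Multiplicative.toAdd (ψ₁.1 g₀).left = Multiplicative.toAdd (ψ₂.1 g₀).left := h12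
      rw [h12', ← hb] at ha
      have hnz : (1 - (χ g₀ : F)) ≠ 0 := by
        intro h0
        apply hχg
        ext
        rw [Units.val_one]
        linear_combination -h0
      exact Multiplicative.toAdd.injective (mul_left_cancel₀ hnz ha)
    · exact (ψ₁.2.2 g).trans (ψ₂.2.2 g).symm
  rw [hl, h1, hcardF] at h2
  exact (Nat.pow_le_pow_iff_left (by norm_num)).mp h2

end Helper575.FF.SL16
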